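import Pool.Agent.N990.U.ChainU
import Pool.Agent.N990.Mach.Ratio

/-!
# The uniform machine: the ratio property
-/

set_option autoImplicit false
set_option linter.unusedSectionVars false

open MeasureTheory Finset Function Filter Topology
open scoped ENNReal Classical
open Pool.Agent.N986.PB

namespace Pool.Agent.N990.Mach

noncomputable section

/-- **The ratio property with the sharp relation between radius and error.** -/
theorem ratioAllU {al : ℝ} (hal : 0 < al) {Dg : ℕ} (hS1 : Small1U Dg) {Cc : ℝ}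
    (hS2 : Small2U Dg Cc) : RatioAllU al Dg Cc := by
  obtain ⟨k₀, hk₀, hS2⟩ := hS2
  refine ⟨k₀ + 1, fun J e he => ?_⟩
  rcases J with _ | j
  · refine ⟨1, one_pos, ?_⟩
    filter_upwards [fu_ge 1] with p hβ K Y V _ _ _ _ _ _ _ ν _ _ c hcal hDg hbd ι τ S hcut
      W hW z hz ψ ψ' hag s hs
    have h1 : (1 : ℝ≥0∞) ≤ ENNReal.ofReal (p.1 ^ (-(((0 : ℕ) : ℝ) / 2 - e))) := by
      rw [← ENNReal.ofReal_one]
      refine ENNReal.ofReal_le_ofReal (Real.one_le_rpow hβ ?_)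
      rw [Nat.cast_zero]; linarith
    rw [tsub_eq_zero_of_le h1, zero_mul]
    exact zero_le
  · have hk : 0 ≤ 1 / (2 * al) := by positivity
    obtain ⟨e₁, he₁, hC⟩ := CJU_all hal hS1 j (e / 4) (j + 1) (by linarith) (by positivity)
    obtain ⟨e2, he2⟩ : ∃ e2 : ℝ, e2 = min e₁ (e / 4) := ⟨_, rfl⟩
    have he20 : 0 < e2 := by rw [he2]; exact lt_min he₁ (by linarith)
    have he21 : e2 ≤ e₁ := he2 ▸ min_le_left _ _
    have he22 : e2 ≤ e / 4 := he2 ▸ min_le_right _ _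
    have h2 := hS2 (e2 / 2) e2 (by linarith) (by linarith)
    have v1 := vol_U Dg hk (j + 1) one_pos
    have v2 := fu_ev (ev_exp 1 ((j : ℝ) + 2) he20)
    have v3 := fu_ev (ev_rpow (a := -(((j + 1 : ℕ) : ℝ) / 2 - e))
      (b := -(((j + 1 : ℕ) : ℝ) / 2 - e / 2)) 8 (by linarith))
    have v4 := fu_ev (Real.tendsto_log_atTop.eventually_ge_atTop ((j : ℝ) + 4))
    refine ⟨e2 / 2, by linarith, ?_⟩
    filter_upwards [hC e2 he20 he21, h2, v1, v2, v3, v4, fu_ge 1] with p hRL h2β v1 v2 v3 v4 hβ1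
      K Y V _ _ _ _ _ _ _ ν _ _ c hcal hDg hbd ι τ S hcut W hW z hz ψ ψ' hag s hs
    replace hRL := hRL K Y V ν c hcal hDg hbd
    replace h2β := h2β K Y V ν c hDg hbd ι τ S hcut
    replace v1 := v1 K Y V ν c hDg hbd
    obtain ⟨β, X'⟩ := p
    dsimp only at hRL h2β v1 v2 v3 v4 hβ1 hbd hag hs ⊢
    have hβ0 : 0 < β := by linarith
    have d1 : β ^ (-1 / 2 + e2 / 2) ≤ β ^ (-1 / 2 + e2) := rp_mono hβ1 (by linarith)
    have hs' : S.nrm s ≤ β ^ (-1 / 2 + e2 / 2) := hs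
    have hRLβ := hRL ι τ S W z s hW hz (hs'.trans d1)
    obtain ⟨-, n2⟩ := v1 ι τ S W z
    obtain ⟨r, hr⟩ : ∃ r, r = (j + 1) * rad (1 / (2 * al)) β := ⟨_, rfl⟩
    rw [← hr] at n2
    rw [← hr] at hRLβ
    obtain ⟨R, hR⟩ : ∃ R, R = rad (((j + 1 : ℕ) : ℝ) / (2 * al) + (k₀ + 1)) β := ⟨_, rfl⟩
    rw [← hR] at hag
    have hlog := Real.log_nonneg hβ1
    -- the radii
    have hrad : r + 1 + rad k₀ β ≤ R := by
      have a1 : (rad (1 / (2 * al)) β : ℝ) ≤ 1 / (2 * al) * Real.log β + 1 := by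
        unfold rad
        exact (Nat.ceil_lt_add_one (by positivity)).le
      have a2 : (rad k₀ β : ℝ) ≤ k₀ * Real.log β + 1 := by
        unfold rad
        exact (Nat.ceil_lt_add_one (by positivity)).le
      have a3 : (((j + 1 : ℕ) : ℝ) / (2 * al) + (k₀ + 1)) * Real.log β ≤ R := by
        rw [hR]; exact Nat.le_ceil _
      have a4 : (r : ℝ) ≤ ((j : ℝ) + 1) * (1 / (2 * al) * Real.log β + 1) := by
        rw [hr]; push_cast
        exact mul_le_mul_of_nonneg_left a1 (by positivity)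
      have a5 : ((r + 1 + rad k₀ β : ℕ) : ℝ) ≤ R := by
        push_cast at a3 ⊢
        have a6 : ((j : ℝ) + 1) * (1 / (2 * al) * Real.log β + 1) =
            ((j : ℝ) + 1) / (2 * al) * Real.log β + (j + 1) := by
          field_simp
        have a7 : (((j : ℝ) + 1) / (2 * al) + (k₀ + 1)) * Real.log β =
          ((j : ℝ) + 1) / (2 * al) * Real.log β + k₀ * Real.log β + Real.log β := by ring
        linarith
      exact_mod_cast a5
    have hrR : r + 1 ≤ R := by omega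
    obtain ⟨κ₀, hκ₀⟩ : ∃ κ₀, κ₀ = Real.exp (-β ^ e2) := ⟨_, rfl⟩
    have hκ₀0 : 0 < κ₀ := hκ₀ ▸ Real.exp_pos _
    rw [← hκ₀, one_mul] at v2
    rw [Real.rpow_one] at n2
    have hcard : ((S.bd (S.reg W z r)).card : ℝ) ≤ β := by linarith
    have hdist : ∀ y ∈ S.bd (S.reg W z r), S.d z y ≤ r + 1 := fun y hy => (S.bd_reg hy).1
    have key : ∀ (W' : Finset ι) (χ : ι → K), W' ⊆ W → (∀ y, y ∉ W' → S.d z y ≤ R →
        S.nrm (χ y) ≤ β ^ (-1 / 2 + e2 / 2)) →
        ev ν (S.w β) W' (ind fun φ => ∃ y ∈ S.bd (S.reg W z r), β ^ (-1 / 2 + e2) < S.nrm (φ y)) χ ≤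
          ENNReal.ofReal (β * κ₀) := by
      intro W' χ hW' hχ
      refine (S.bad_union β (κ := κ₀) (fun y hy hyW => ?_) fun y hy hyW => ?_).trans ?_
      · exact (hχ y hyW ((hdist y hy).trans hrR)).trans d1
      · rw [hκ₀]
        refine h2β W' (hW'.trans hW) y hyW χ fun y' hy' hd => hχ y' hy' ?_
        have := S.dtri z y y'
        have := hdist y hy
        omega
      · rw [← ENNReal.ofReal_natCast, ← ENNReal.ofReal_mul (Nat.cast_nonneg _)]
        exact ENNReal.ofReal_le_ofReal (mul_le_mul_of_nonneg_right hcard hκ₀0.le)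
    have hcore := S.ratio_core β (ν := ν) (κ := β * κ₀) (ψ := ψ) (ψ' := ψ') hRLβ hz
      (Real.rpow_nonneg hβ0.le _) (Real.rpow_nonneg hβ0.le _) (Real.rpow_nonneg hβ0.le _)
      (by positivity) (fun y hy hd => ⟨(hag y hy (hd.trans hrR)).1,
        le_trans (hag y hy (hd.trans hrR)).2 d1⟩)
      (key (W.erase z) (update ψ z s) (Finset.erase_subset _ _) fun y hy hd => by
        by_cases hyz : y = z
        · rw [hyz, update_self]; exact hs'
        · rw [update_of_ne hyz]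
          exact (hag y (fun h => hy (Finset.mem_erase.2 ⟨hyz, h⟩)) hd).2)
      (key W ψ' subset_rfl fun y hy hd => by
        rw [← (hag y hy hd).1]
        exact (hag y hy hd).2)
    have hε : 2 * (β * κ₀) + 2 * (β ^ (-(j : ℝ) / 2 + e / 4) * (2 * β ^ (-1 / 2 + e2)) +
        β ^ (-((j : ℝ) + 1))) ≤ β ^ (-(((j + 1 : ℕ) : ℝ) / 2 - e)) := by
      obtain ⟨X, hX⟩ : ∃ X, X = β ^ (-(((j + 1 : ℕ) : ℝ) / 2 - e / 2)) := ⟨_, rfl⟩
      rw [← hX] at v3
      have hX0 : 0 < X := hX ▸ Real.rpow_pos_of_pos hβ0 _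
      have hj0 : (0 : ℝ) ≤ j := Nat.cast_nonneg _
      have b1 : β * κ₀ ≤ X := by
        refine (mul_le_mul_of_nonneg_left v2 hβ0.le).trans ?_
        rw [rp1 hβ0 rfl, hX]
        refine rp_mono hβ1 ?_
        push_cast; linarith
      have b2 : β ^ (-(j : ℝ) / 2 + e / 4) * (2 * β ^ (-1 / 2 + e2)) ≤ 2 * X := by
        rw [show β ^ (-(j : ℝ) / 2 + e / 4) * (2 * β ^ (-1 / 2 + e2)) =
          2 * (β ^ (-(j : ℝ) / 2 + e / 4) * β ^ (-1 / 2 + e2)) by ring, rp2 hβ0 rfl, hX]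
        refine mul_le_mul_of_nonneg_left (rp_mono hβ1 ?_) (by norm_num)
        push_cast; linarith
      have b3 : β ^ (-((j : ℝ) + 1)) ≤ X := by
        rw [hX]
        refine rp_mono hβ1 ?_
        push_cast; linarith
      linarith
    have fD := S.dn_ne_top β W z ψ s (ν := ν)
    have fD' := S.dn_ne_top β W z ψ' s (ν := ν)
    rw [← ENNReal.ofReal_toReal fD, ← ENNReal.ofReal_toReal fD', ← ENNReal.ofReal_one,
      ← ENNReal.ofReal_sub _ (Real.rpow_nonneg hβ0.le _), ← ENNReal.ofReal_mul' ENNReal.toReal_nonneg]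
    refine ENNReal.ofReal_le_ofReal (le_trans ?_ hcore)
    exact mul_le_mul_of_nonneg_right (by linarith) ENNReal.toReal_nonneg

end

end Pool.Agent.N990.Mach
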