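import Pool.Agent.N990.U.ConstU
import Pool.Agent.N986.U.DecayU

/-!
# Decay of the influence of the boundary condition, uniformly in the thickness of the slab
-/

set_option autoImplicit false
set_option linter.unusedSectionVars false

open MeasureTheory Matrix
open scoped Matrix.Norms.Frobenius Classical ENNReal
open Pool.Agent.N986.PB

namespace Pool.Agent.N990

noncomputable section

open Pool.Agent.N990.Mach

variable {N : ℕ} {G : Subgroup (UU N)} [MeasurableSpace G] [BorelSpace G]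

/-- the quadratic mass is at most the angle -/
lemma m_le_angle {m : ℝ} {L : ℕ} (hL : 1 ≤ L) (hm : 0 ≤ m) (h : 2 * Real.cosh m - 2 = lam0 L) :
    m ≤ Real.pi / (2 * L + 1) := by
  have hL' : (1 : ℝ) ≤ L := by exact_mod_cast hL
  have hπ := Real.pi_pos
  obtain ⟨θ, hθ⟩ : ∃ θ, θ = Real.pi / (2 * L + 1) := ⟨_, rfl⟩
  have hθ0 : 0 < θ := by rw [hθ]; positivity
  have hθπ : θ ≤ Real.pi := by
    rw [hθ]
    exact div_le_self hπ.le (by linarith)
  have h1 : Real.cosh m = 1 + 2 * Real.sinh (m / 2) ^ 2 := by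
    have h2 := Real.cosh_two_mul (m / 2)
    rw [mul_div_cancel₀ _ (two_ne_zero)] at h2
    rw [h2, Real.cosh_sq]
    ring
  have h3 : Real.cos θ = 1 - 2 * Real.sin (θ / 2) ^ 2 := by
    have h2 := Real.cos_two_mul (θ / 2)
    rw [mul_div_cancel₀ _ (two_ne_zero)] at h2
    have h4 := Real.sin_sq_add_cos_sq (θ / 2)
    rw [h2]; linarith
  have h4 : lam0 L = 2 - 2 * Real.cos θ := by rw [hθ]; rfl
  rw [← hθ]
  have h5 : Real.sinh (m / 2) ^ 2 = Real.sin (θ / 2) ^ 2 := by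
    rw [h4, h1, h3] at h; linarith
  have h6 : 0 ≤ Real.sinh (m / 2) := Real.sinh_nonneg_iff.2 (by linarith)
  have h7 : 0 ≤ Real.sin (θ / 2) := Real.sin_nonneg_of_nonneg_of_le_pi (by linarith) (by linarith)
  have h8 : Real.sinh (m / 2) = Real.sin (θ / 2) := by
    rcases sq_eq_sq_iff_eq_or_eq_neg.1 h5 with h | h <;> linarith
  have h9 : m / 2 ≤ Real.sinh (m / 2) := Real.self_le_sinh_iff.2 (by linarith)
  have h10 : Real.sin (θ / 2) ≤ θ / 2 := Real.sin_le (by linarith)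
  linarith

lemma m_unique {m m' : ℝ} (hm : 0 ≤ m) (hm' : 0 ≤ m') (h : Real.cosh m = Real.cosh m') :
    m = m' := by
  have h1 := Real.cosh_le_cosh.1 h.le
  have h2 := Real.cosh_le_cosh.1 h.ge
  rw [abs_of_nonneg hm, abs_of_nonneg hm'] at h1 h2
  linarith

lemma ge_of_poly {K : ℕ} {x β : ℝ} (hx : 1 ≤ x) (h : (K : ℝ) * x ^ K ≤ β) : (K : ℝ) ≤ β := by
  have h1 : (1 : ℝ) ≤ x ^ K := one_le_pow₀ hx
  have h2 : (0 : ℝ) ≤ K := Nat.cast_nonneg _
  nlinarith

/-- eventual properties of the parameters hold for polynomially large couplings -/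
lemma un_of_poly (n K₁ : ℕ) : ∃ K : ℕ, ∀ x β : ℝ, 1 ≤ x → (K : ℝ) * x ^ K ≤ β →
    1 ≤ (K₁ : ℝ) * x ^ K₁ → (β, (K₁ : ℝ) * x ^ K₁) ∈ Un n := by
  obtain ⟨K, hK⟩ : ∃ K : ℕ, K = max (n + 1) (max (K₁ ^ (n + 1)) (K₁ * (n + 1))) := ⟨_, rfl⟩
  have k1 : n + 1 ≤ K := by rw [hK]; exact le_max_left _ _
  have k2 : K₁ ^ (n + 1) ≤ K := by
    rw [hK]; exact (le_max_left _ _).trans (le_max_right _ _)
  have k3 : K₁ * (n + 1) ≤ K := by
    rw [hK]; exact (le_max_right _ _).trans (le_max_right _ _)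
  refine ⟨K, fun x β hx hβ h1 => ⟨?_, h1, ?_⟩⟩
  · have h2 := ge_of_poly hx hβ
    have h3 : ((n + 1 : ℕ) : ℝ) ≤ K := by exact_mod_cast k1
    push_cast at h3
    exact h3.trans h2
  · refine le_trans ?_ hβ
    simp only
    rw [mul_pow, ← pow_mul]
    have h3 : ((K₁ : ℝ)) ^ (n + 1) ≤ K := by exact_mod_cast k2
    have h4 : x ^ (K₁ * (n + 1)) ≤ x ^ K := pow_le_pow_right₀ hx k3
    exact mul_le_mul h3 h4 (by positivity) (Nat.cast_nonneg _)

/-- **The slab systems, uniformly in the thickness**, black box form. -/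
theorem exists_sysU (hG : IsClosed (G : Set (UU N))) (μ : Measure G) [IsProbabilityMeasure μ]
    [μ.IsMulLeftInvariant] (D : ℕ) {al δ : ℝ} (hal : 0 < al) (hδ : 0 < δ) :
    ∃ (E : Type) (_ : NormedAddCommGroup E) (_ : NormedSpace ℝ E) (K : ℕ), ∀ L : ℕ, 1 ≤ L →
      δ / (L : ℝ) ^ 2 ≤ lam0 L - (2 * Real.cosh (al / (L + 2 : ℕ)) - 2) →
      ∃ c : Cst, c.al = al ∧ c.Dg = D ∧ Bd c ((K : ℝ) * (L : ℝ) ^ K) ∧
      ∀ V : Finset (Site D), ∃ S : Sys (Site D) (Site D) (Lab D L → G) (Lab D L → Mt N)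
        (Lab D L → E) (Measure.pi fun _ : Lab D L => μ) c,
        Cut S (12 * D + 6) ∧ S.Lam = V ∧ (∀ x y, S.d x y = cd (L + 2) (dd x y)) ∧
        S.nrm = nrmS ∧ ∀ β, S.w β = wS β V := by
  obtain ⟨X⟩ := exists_lieG hG
  obtain ⟨cv, hcv, d, hvol⟩ := vol_U μ D
  obtain ⟨K, hK⟩ := bdU X D hal hδ hcv d
  refine ⟨X.g, inferInstance, inferInstance, K, fun L hL hmar => ?_⟩
  have hL0 : 0 < lam0 L := lam0_pos hL
  have hα : 0 < al / (L + 2 : ℕ) := by positivity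
  have hcv' : 0 < cv ^ (D * L) := by positivity
  have hnv : (0 : ℝ) ≤ ((d * (D * L) : ℕ) : ℝ) := Nat.cast_nonneg _
  have hx : (1 : ℝ) ≤ L := by exact_mod_cast hL
  have hrate : 2 * Real.cosh (al / (L + 2 : ℕ)) - 2 < lam0 L := by
    have : 0 < δ / (L : ℝ) ^ 2 := by positivity
    linarith
  refine ⟨_, ?_, ?_, hK L hL hmar hL0 hα hcv' hnv, fun V =>
    ⟨sysU μ X hL0 hα hrate hcv' hnv (hvol L) V, cutU μ X hL0 hα hrate hcv' hnv (hvol L) V,
      rfl, fun _ _ => rfl, rfl, fun _ => rfl⟩⟩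
  · show al / ((L + 2 : ℕ) : ℝ) * ((L + 2 : ℕ) : ℝ) = al
    exact div_mul_cancel₀ al (by positivity)
  · rfl

/-- **Decay of the influence of the boundary condition, uniformly in the thickness.** -/
theorem slab_infl_U (hG : IsClosed (G : Set (UU N))) (μ : Measure G) [IsProbabilityMeasure μ]
    [μ.IsMulLeftInvariant] (D : ℕ) {ε : ℝ} (hε : 0 < ε) (hε1 : ε < 1) :
    ∃ K : ℕ, ∀ L : ℕ, 1 ≤ L → ∀ β : ℝ, (K : ℝ) * (L : ℝ) ^ K ≤ β →
      ∀ m : ℝ, 0 ≤ m → 2 * Real.cosh m - 2 = lam0 L → ∃ C : ℝ, 0 < C ∧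
      ∀ (V A : Finset (Site D)) (r : ℕ), (∀ a ∈ A, ∀ y ∉ V, r < dd a y) →
        ∀ f : (Site D → Lab D L → G) → ℝ≥0∞, Measurable f → (∀ φ, f φ ≤ 1) →
        (∀ φ φ' : Site D → Lab D L → G, (∀ a ∈ A, φ a = φ' a) → f φ = f φ') →
        ∀ ψ ψ' : Site D → Lab D L → G,
          Pool.Agent.N986.PB.ev (Measure.pi fun _ : Lab D L => μ) (wS β V) V f ψ ≤
            Pool.Agent.N986.PB.ev (Measure.pi fun _ : Lab D L => μ) (wS β V) V f ψ' +
              A.card * ENNReal.ofReal (C * Real.exp (-((1 - ε) * m * r))) := by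
  have hπ := Real.pi_pos
  obtain ⟨al, hal⟩ : ∃ al, al = (1 - ε / 3) * (Real.pi / 2) := ⟨_, rfl⟩
  obtain ⟨m', hm'⟩ : ∃ m', m' = (1 - ε / 2) * (Real.pi / 2) := ⟨_, rfl⟩
  have hal0 : 0 < al := by rw [hal]; exact mul_pos (by linarith) (by positivity)
  have hal1 : al < Real.pi / 2 := by rw [hal]; nlinarith
  have hm0 : 0 ≤ m' := by rw [hm']; exact mul_nonneg (by linarith) (by positivity)
  have hmal : m' < al := by rw [hm', hal]; nlinarith
  obtain ⟨δ, hδ, L₀, hL₀⟩ := exists_margin hal0 hal1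
  obtain ⟨E, i1, i2, K₁, hsys⟩ := exists_sysU hG μ D hal0 hδ
  have hD0 : (0 : ℝ) ≤ D := Nat.cast_nonneg _
  obtain ⟨n, hn⟩ := fu_iff.1 (sharpU D (Cc := 12 * D + 6) (by linarith) hal0 hm0 hmal)
  obtain ⟨K₂, hK₂⟩ := un_of_poly n K₁
  obtain ⟨M, hM⟩ := exists_nat_ge (3 / ε)
  obtain ⟨L₁, hL₁⟩ : ∃ L₁, L₁ = max L₀ M := ⟨_, rfl⟩
  -- finitely many thicknesses
  have hfin : ∀ L : ℕ, ∃ β₀ : ℝ, 1 ≤ L → ∀ β ≥ β₀, ∀ m : ℝ, 0 ≤ m →
      2 * Real.cosh m - 2 = lam0 L → ∃ C : ℝ, 0 < C ∧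
      ∀ (V A : Finset (Site D)) (r : ℕ), (∀ a ∈ A, ∀ y ∉ V, r < dd a y) →
        ∀ f : (Site D → Lab D L → G) → ℝ≥0∞, Measurable f → (∀ φ, f φ ≤ 1) →
        (∀ φ φ' : Site D → Lab D L → G, (∀ a ∈ A, φ a = φ' a) → f φ = f φ') →
        ∀ ψ ψ' : Site D → Lab D L → G,
          Pool.Agent.N986.PB.ev (Measure.pi fun _ : Lab D L => μ) (wS β V) V f ψ ≤
            Pool.Agent.N986.PB.ev (Measure.pi fun _ : Lab D L => μ) (wS β V) V f ψ' +
              A.card * ENNReal.ofReal (C * Real.exp (-((1 - ε) * m * r))) := by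
    intro L
    by_cases hex : 1 ≤ L ∧ ∃ m₀ : ℝ, 0 ≤ m₀ ∧ 2 * Real.cosh m₀ - 2 = lam0 L
    · obtain ⟨hL, m₀, hm₀, hc⟩ := hex
      have hlam := lam0_pos hL
      have hm₀' : 0 < m₀ := by
        rcases hm₀.eq_or_lt with h | h
        · rw [← h, Real.cosh_zero] at hc; linarith
        · exact h
      have hlt : 2 * Real.cosh ((1 - ε) * m₀) - 2 < lam0 L := by
        rw [← hc]
        have : Real.cosh ((1 - ε) * m₀) < Real.cosh m₀ := by
          rw [Real.cosh_lt_cosh, abs_of_nonneg (mul_nonneg (by linarith) hm₀),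
            abs_of_nonneg hm₀]
          nlinarith
        linarith
      obtain ⟨β₀, -, h⟩ := slab_infl (D := D) hG μ (mul_nonneg (by linarith) hm₀) hlt
      refine ⟨β₀, fun _ β hβ m hm hcm => ?_⟩
      have : m = m₀ := m_unique hm hm₀ (by linarith)
      rw [this]
      exact h β hβ
    · refine ⟨0, fun hL β _ m hm hcm => absurd ⟨hL, m, hm, hcm⟩ hex⟩
  choose β₀ hβ₀ using hfin
  obtain ⟨M₂, hM₂⟩ : ∃ M₂ : ℕ, ∀ L < L₁, β₀ L ≤ M₂ := by
    obtain ⟨M₂, hM₂⟩ := exists_nat_ge (∑ L ∈ Finset.range L₁, |β₀ L|)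
    refine ⟨M₂, fun L hL => ((le_abs_self _).trans ?_).trans hM₂⟩
    exact Finset.single_le_sum (f := fun L => |β₀ L|) (fun _ _ => abs_nonneg _)
      (Finset.mem_range.2 hL)
  obtain ⟨K, hK⟩ : ∃ K : ℕ, K = max K₂ M₂ := ⟨_, rfl⟩
  have hK2 : K₂ ≤ K := by rw [hK]; exact le_max_left _ _
  have hKM : M₂ ≤ K := by rw [hK]; exact le_max_right _ _
  refine ⟨K, fun L hL β hβ m hm hcm => ?_⟩
  have hx : (1 : ℝ) ≤ L := by exact_mod_cast hL
  by_cases hLL : L < L₁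
  · refine hβ₀ L hL β ?_ m hm hcm
    have h1 := ge_of_poly hx hβ
    have h2 : (M₂ : ℝ) ≤ K := by exact_mod_cast hKM
    have h3 := hM₂ L hLL
    show β₀ L ≤ β
    linarith
  · push Not at hLL
    have hLM : (M : ℝ) ≤ L := by
      have : M ≤ L := le_trans (by rw [hL₁]; exact le_max_right _ _) hLL
      exact_mod_cast this
    have hL0' : L₀ ≤ L := le_trans (by rw [hL₁]; exact le_max_left _ _) hLL
    obtain ⟨c, hcal, hcD, hbd, hS⟩ := hsys L hL (hL₀ L hL0')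
    have hX1 : 1 ≤ (K₁ : ℝ) * (L : ℝ) ^ K₁ := c.hnm.trans hbd.nm
    have hβ' : (K₂ : ℝ) * (L : ℝ) ^ K₂ ≤ β := by
      refine le_trans ?_ hβ
      have h1 : (K₂ : ℝ) ≤ K := by exact_mod_cast hK2
      exact mul_le_mul h1 (pow_le_pow_right₀ hx hK2) (by positivity) (Nat.cast_nonneg _)
    have hp := hn _ (hK₂ L β hx hβ' hX1)
    obtain ⟨C, hC, h⟩ := hp (Lab D L → G) (Lab D L → Mt N) (Lab D L → E)
      (Measure.pi fun _ : Lab D L => μ) c hcal hcD hbd
    refine ⟨C * Real.exp m', by positivity, fun V A r hA f hf hf1 hfA ψ ψ' => ?_⟩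
    obtain ⟨S, hcut, hLam, hd, -, hw⟩ := hS V
    have hb : 1 ≤ L + 2 := by omega
    have hA' : ∀ a ∈ A, ∀ y ∉ V, r / (L + 2) < S.d a y := by
      intro a ha y hy
      rw [hd]
      by_contra hcon
      push Not at hcon
      rw [cd_le hb] at hcon
      have h1 := hA a ha y hy
      have h2 := Nat.div_mul_le_self r (L + 2)
      omega
    have h3 := h (Site D) (Site D) S hcut V A (r / (L + 2)) (by rw [hLam]) hA' f hf hf1 hfA ψ ψ'
    simp only at h3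
    rw [hw β] at h3
    refine (le_of_eq ?_).trans (h3.trans (add_le_add (le_of_eq ?_)
      (mul_le_mul_right (ENNReal.ofReal_le_ofReal ?_) _)))
    · congr
    · congr
    rw [mul_assoc, ← Real.exp_add]
    refine mul_le_mul_of_nonneg_left (Real.exp_le_exp.2 ?_) hC.le
    -- the rates
    have hmθ := m_le_angle hL hm hcm
    have hr1 : (r : ℝ) ≤ ((r / (L + 2) : ℕ) + 1) * (L + 2) := by
      have h4 := Nat.lt_div_mul_add (a := r) (b := L + 2) (by omega)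
      have h5 : r ≤ (r / (L + 2) + 1) * (L + 2) := by
        rw [add_mul, one_mul]; omega
      exact_mod_cast h5
    have h6 : (1 - ε) * m * (L + 2) ≤ m' := by
      have h7 : (1 - ε) * m * (L + 2) ≤ (1 - ε) * (Real.pi / (2 * L + 1)) * (L + 2) := by
        refine mul_le_mul_of_nonneg_right (mul_le_mul_of_nonneg_left hmθ (by linarith))
          (by linarith)
      refine h7.trans ?_
      rw [hm']
      have h8 : (1 - ε) * (Real.pi / (2 * L + 1)) * (L + 2) =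
          (Real.pi / 2) * ((1 - ε) * (2 * (L + 2)) / (2 * L + 1)) := by
        field_simp
      rw [h8, mul_comm (1 - ε / 2)]
      refine mul_le_mul_of_nonneg_left ?_ (by positivity)
      rw [div_le_iff₀ (by linarith)]
      have h9 : 3 ≤ ε * L := by
        have h10 := hM.trans hLM
        rw [div_le_iff₀ hε] at h10
        linarith
      nlinarith
    have h11 : (1 - ε) * m * r ≤ m' * ((r / (L + 2) : ℕ) + 1) := by
      calc (1 - ε) * m * r ≤ (1 - ε) * m * (((r / (L + 2) : ℕ) + 1) * (L + 2)) :=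
            mul_le_mul_of_nonneg_left hr1 (mul_nonneg (by linarith) hm)
        _ = (1 - ε) * m * (L + 2) * ((r / (L + 2) : ℕ) + 1) := by ring
        _ ≤ _ := mul_le_mul_of_nonneg_right h6 (by positivity)
    linarith

end

end Pool.Agent.N990
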