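import Pool.Agent.N990.Mach.Asym

/-!
# The uniform machine: the filter of the parameters

`p = (β, X)`: the coupling `β` is larger than every power of the bound `X` of the constants.
-/

set_option autoImplicit false
set_option linter.unusedSectionVars false

open MeasureTheory Finset Function Filter Topology
open scoped ENNReal Classical
open Pool.Agent.N986.PB

namespace Pool.Agent.N990.Mach

noncomputable section

/-- the coupling is larger than the power `n + 1` of the bound of the constants -/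
def Un (n : ℕ) : Set (ℝ × ℝ) := {p | (n : ℝ) + 1 ≤ p.1 ∧ 1 ≤ p.2 ∧ p.2 ^ (n + 1) ≤ p.1}

/-- the filter of the parameters -/
def FU : Filter (ℝ × ℝ) := ⨅ n : ℕ, 𝓟 (Un n)

lemma Un_anti {n m : ℕ} (h : n ≤ m) : Un m ⊆ Un n := by
  rintro p ⟨h1, h2, h3⟩
  refine ⟨le_trans ?_ h1, h2, le_trans (pow_le_pow_right₀ h2 (by omega)) h3⟩
  have : (n : ℝ) ≤ m := by exact_mod_cast h
  linarith

lemma FU_basis : FU.HasBasis (fun _ : ℕ => True) Un := by
  unfold FU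
  refine hasBasis_iInf_principal ?_
  intro n m
  exact ⟨max n m, Un_anti (le_max_left _ _), Un_anti (le_max_right _ _)⟩

lemma fu_iff {P : ℝ × ℝ → Prop} : (∀ᶠ p in FU, P p) ↔ ∃ n : ℕ, ∀ p ∈ Un n, P p := by
  rw [FU_basis.eventually_iff]
  simp

lemma fu_of {P : ℝ × ℝ → Prop} (n : ℕ) (h : ∀ p ∈ Un n, P p) : ∀ᶠ p in FU, P p :=
  fu_iff.2 ⟨n, h⟩

lemma fu_fst : Tendsto Prod.fst FU (atTop : Filter ℝ) := by
  rw [tendsto_atTop]
  intro b
  obtain ⟨n, hn⟩ := exists_nat_ge b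
  exact fu_of n fun p hp => by
    have := hp.1
    linarith

lemma fu_ev {P : ℝ → Prop} (h : ∀ᶠ β : ℝ in atTop, P β) : ∀ᶠ p in FU, P p.1 :=
  fu_fst.eventually h

lemma fu_one : ∀ᶠ p in FU, (1 : ℝ) ≤ p.2 := fu_of 0 fun _ hp => hp.2.1

lemma fu_ge (b : ℝ) : ∀ᶠ p in FU, b ≤ p.1 := fu_ev (eventually_ge_atTop b)

lemma fu_gt (b : ℝ) : ∀ᶠ p in FU, b < p.1 := fu_ev (eventually_gt_atTop b)

/-- powers of the bound of the constants are smaller than every positive power of the coupling -/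
lemma fu_pow (n : ℕ) {a : ℝ} (ha : 0 < a) : ∀ᶠ p in FU, p.2 ^ n ≤ p.1 ^ a := by
  obtain ⟨m, hm⟩ := exists_nat_ge ((n : ℝ) / a)
  refine fu_of m fun p hp => ?_
  obtain ⟨h1, h2, h3⟩ := hp
  have hm0 : (0 : ℝ) ≤ m := Nat.cast_nonneg _
  have hβ : 1 ≤ p.1 := by linarith
  have hX : 0 ≤ p.2 := by linarith
  have h4 : (n : ℝ) ≤ (m + 1) * a := by
    rw [div_le_iff₀ ha] at hm
    nlinarith
  calc p.2 ^ n = p.2 ^ (n : ℝ) := (Real.rpow_natCast _ _).symm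
    _ ≤ p.2 ^ ((m + 1 : ℝ) * a) := Real.rpow_le_rpow_of_exponent_le h2 h4
    _ = (p.2 ^ (m + 1)) ^ a := by
        rw [Real.rpow_mul hX]
        congr 1
        rw [← Real.rpow_natCast]
        push_cast
        rfl
    _ ≤ p.1 ^ a := Real.rpow_le_rpow (by positivity) h3 ha.le

/-- powers -/
lemma fu_rpow {a b : ℝ} (C : ℝ) (n : ℕ) (h : b < a) :
    ∀ᶠ p in FU, ∀ Y : ℝ, Y ≤ C * p.2 ^ n → Y * p.1 ^ b ≤ p.1 ^ a := by
  have h1 := fu_pow n (a := (a - b) / 2) (by linarith)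
  have h2 := fu_ev (ev_rpow (a := a) (b := b + (a - b) / 2) |C| (by linarith))
  filter_upwards [h1, h2, fu_ge 1, fu_one] with p h1 h2 h3 h4 Y hY
  have hβ0 : 0 < p.1 := by linarith
  have h5 : 0 ≤ p.1 ^ b := Real.rpow_nonneg hβ0.le _
  have h6 : 0 ≤ p.2 ^ n := by positivity
  calc Y * p.1 ^ b ≤ |C| * p.2 ^ n * p.1 ^ b := by
        refine mul_le_mul_of_nonneg_right (hY.trans ?_) h5
        exact mul_le_mul_of_nonneg_right (le_abs_self C) h6
    _ ≤ |C| * p.1 ^ ((a - b) / 2) * p.1 ^ b := by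
        refine mul_le_mul_of_nonneg_right ?_ h5
        exact mul_le_mul_of_nonneg_left h1 (abs_nonneg C)
    _ = |C| * p.1 ^ (b + (a - b) / 2) := by
        rw [mul_assoc, ← Real.rpow_add hβ0]
        congr 2; ring
    _ ≤ _ := h2

/-- logarithms -/
lemma fu_log {a : ℝ} (C : ℝ) (n : ℕ) (h : 0 < a) :
    ∀ᶠ p in FU, ∀ Y : ℝ, Y ≤ C * p.2 ^ n → Y * Real.log p.1 ≤ p.1 ^ a := by
  have h1 := fu_ev (ev_log (a := a / 2) 1 (by linarith))
  have h2 := fu_rpow (a := a) (b := a / 2) |C| n (by linarith)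
  filter_upwards [h1, h2, fu_ge 1, fu_one] with p h1 h2 h3 h4 Y hY
  rw [one_mul] at h1
  have h5 := Real.log_nonneg h3
  have h6 : 0 ≤ p.2 ^ n := by positivity
  have h7 := h2 (|C| * p.2 ^ n) le_rfl
  calc Y * Real.log p.1 ≤ |C| * p.2 ^ n * Real.log p.1 := by
        refine mul_le_mul_of_nonneg_right (hY.trans ?_) h5
        exact mul_le_mul_of_nonneg_right (le_abs_self C) h6
    _ ≤ |C| * p.2 ^ n * p.1 ^ (a / 2) := mul_le_mul_of_nonneg_left h1 (by positivity)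
    _ ≤ _ := h7

/-- powers of the radius -/
lemma fu_rad (k : ℝ) (hk : 0 ≤ k) (C : ℝ) (n m : ℕ) {a : ℝ} (ha : 0 < a) :
    ∀ᶠ p in FU, ∀ Y : ℝ, Y ≤ C * p.2 ^ n → Y * ((rad k p.1 : ℝ) + 2) ^ m ≤ p.1 ^ a := by
  have h1 := fu_ev (ev_rad k hk 1 m (a := a / 2) (by linarith))
  have h2 := fu_rpow (a := a) (b := a / 2) |C| n (by linarith)
  filter_upwards [h1, h2, fu_ge 1, fu_one] with p h1 h2 h3 h4 Y hY
  rw [one_mul] at h1
  have h6 : 0 ≤ p.2 ^ n := by positivity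
  have h7 := h2 (|C| * p.2 ^ n) le_rfl
  calc Y * ((rad k p.1 : ℝ) + 2) ^ m ≤ |C| * p.2 ^ n * ((rad k p.1 : ℝ) + 2) ^ m := by
        refine mul_le_mul_of_nonneg_right (hY.trans ?_) (by positivity)
        exact mul_le_mul_of_nonneg_right (le_abs_self C) h6
    _ ≤ |C| * p.2 ^ n * p.1 ^ (a / 2) := mul_le_mul_of_nonneg_left h1 (by positivity)
    _ ≤ _ := h7

/-- small powers -/
lemma fu_lt (C : ℝ) (n : ℕ) {x : ℝ} (hx : x < 0) :
    ∀ᶠ p in FU, ∀ Y : ℝ, Y ≤ C * p.2 ^ n → Y * p.1 ^ x ≤ 1 := by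
  filter_upwards [fu_rpow (a := 0) (b := x) C n hx] with p h Y hY
  have := h Y hY
  rwa [Real.rpow_zero] at this

/-- stretched exponentials -/
lemma fu_exp (C : ℝ) (n : ℕ) (M : ℝ) {x : ℝ} (hx : 0 < x) :
    ∀ᶠ p in FU, ∀ Y : ℝ, Y ≤ C * p.2 ^ n → Y * Real.exp (-p.1 ^ x) ≤ p.1 ^ (-M) := by
  have h1 := fu_ev (ev_exp 1 (M + 1) hx)
  have h2 := fu_rpow (a := -M) (b := -(M + 1)) |C| n (by linarith)
  filter_upwards [h1, h2, fu_ge 1, fu_one] with p h1 h2 h3 h4 Y hY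
  rw [one_mul] at h1
  have h6 : 0 ≤ p.2 ^ n := by positivity
  have h7 := h2 (|C| * p.2 ^ n) le_rfl
  calc Y * Real.exp (-p.1 ^ x) ≤ |C| * p.2 ^ n * Real.exp (-p.1 ^ x) := by
        refine mul_le_mul_of_nonneg_right (hY.trans ?_) (Real.exp_pos _).le
        exact mul_le_mul_of_nonneg_right (le_abs_self C) h6
    _ ≤ |C| * p.2 ^ n * p.1 ^ (-(M + 1)) := mul_le_mul_of_nonneg_left h1 (by positivity)
    _ ≤ _ := h7

/-! ### bounds of the constants -/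

/-- all the constants, except the rate and the exponent of the growth, are at most `X` -/
structure Bd (c : Cst) (X : ℝ) : Prop where
  Cg : c.Cg ≤ X
  C0 : c.C0 ≤ X
  c0 : 1 ≤ c.c0 * X
  Cn : c.Cn ≤ X
  CT : c.CT ≤ X
  Cb : c.Cb ≤ X
  Ch : c.Ch ≤ X
  cv : -Real.log c.cv ≤ X
  nv : c.nv ≤ X
  r0 : 1 ≤ c.r0 * X
  nm : c.nm ≤ X

variable {ι τ K Y V : Type*} [Group K] [MeasurableSpace K]
    [NormedAddCommGroup Y] [NormedSpace ℝ Y] [NormedAddCommGroup V] [NormedSpace ℝ V]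
    {ν : Measure K} {c : Cst}

/-- **Cutting**: the energy is nonnegative and continuous, and a configuration can be replaced by
another one inside a ball such that only the energy of the boundary layer is left. -/
structure Cut (S : Sys ι τ K Y V ν c) (Cc : ℝ) : Prop where
  nn : ∀ t ∈ S.T, ∀ φ, 0 ≤ S.h t φ
  cont : ∀ t ∈ S.T, ∀ g φ : ι → K, S.h t (φ * g) ≤ 2 * S.h t φ +
    c.C0 * ∑ y ∈ S.sp t, S.nrm (g y) ^ 2
  cut : ∀ A ⊆ S.Lam, ∀ (z : ι) (r : ℕ) (φ : ι → K), ∃ φ' : ι → K,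
    (∀ y, y ∉ S.Bl A z (r + 1) → φ' y = φ y) ∧
    S.HA (S.Bl A z (r + 1)) φ' ≤ Cc * (S.HA (S.Bl A z (r + 1)) φ - S.HA (S.Bl A z r) φ) +
      c.C0 * ∑ y ∈ (S.bd (S.Bl A z (r + 1))).filter (fun y => y ∉ A), S.nrm (φ y) ^ 2

end

end Pool.Agent.N990.Mach
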