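import Pool.Agent.N990.Mach.Iface

/-!
# The coarse distance
-/

set_option autoImplicit false
set_option linter.unusedSectionVars false

open MeasureTheory Finset Function
open scoped ENNReal Classical

namespace Pool.Agent.N990.Mach

noncomputable section

/-- the coarse distance -/
def cd (b n : ℕ) : ℕ := (n + b - 1) / b

lemma cd_zero {b : ℕ} (hb : 1 ≤ b) : cd b 0 = 0 := by
  unfold cd
  exact Nat.div_eq_of_lt (by omega)

lemma cd_mono {b n m : ℕ} (h : n ≤ m) : cd b n ≤ cd b m := by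
  unfold cd
  exact Nat.div_le_div_right (by omega)

lemma cd_le {b n r : ℕ} (hb : 1 ≤ b) : cd b n ≤ r ↔ n ≤ r * b := by
  unfold cd
  rw [← Nat.lt_succ_iff, Nat.div_lt_iff_lt_mul (by omega), Nat.succ_mul]
  omega

lemma cd_add {b : ℕ} (hb : 1 ≤ b) (n m : ℕ) : cd b (n + m) ≤ cd b n + cd b m := by
  rw [cd_le hb, add_mul]
  have h1 := (cd_le (n := n) (r := cd b n) hb).1 le_rfl
  have h2 := (cd_le (n := m) (r := cd b m) hb).1 le_rfl
  omega

lemma le_cd_mul {b : ℕ} (hb : 1 ≤ b) (n : ℕ) : n ≤ cd b n * b := (cd_le hb).1 le_rfl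

lemma cd_mul_le {b : ℕ} (hb : 1 ≤ b) (n : ℕ) : cd b n * b ≤ n + b := by
  unfold cd
  have := Nat.div_mul_le_self (n + b - 1) b
  omega

lemma cd_one {b n : ℕ} (hb : 1 ≤ b) (h : n ≤ 1) : cd b n ≤ 1 := by
  rw [cd_le hb]; omega

/-- the constants for the coarse distance -/
def Cst.coarse (c : Cst) (b : ℕ) (C0' : ℝ) (hb : 1 ≤ b) (h : c.C0 ≤ C0') : Cst where
  Cg := c.Cg * (b : ℝ) ^ c.Dg
  Dg := c.Dg
  C0 := C0'
  c0 := c.c0
  Cn := c.Cn
  CT := c.CT
  Cb := c.Cb
  Ch := c.Ch * Real.exp (c.al * b)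
  al := c.al * b
  cv := c.cv
  nv := c.nv
  r0 := c.r0
  nm := c.nm
  hCg := by
    have h1 : (1 : ℝ) ≤ (b : ℝ) ^ c.Dg := one_le_pow₀ (by exact_mod_cast hb)
    have := c.hCg
    nlinarith
  hC0 := c.hC0.trans h
  hc0 := c.hc0
  hCn := c.hCn
  hCT := c.hCT
  hCb := c.hCb
  hCh := by
    have h1 : 1 ≤ Real.exp (c.al * b) := Real.one_le_exp (by
      have := c.hal
      positivity)
    have := c.hCh
    nlinarith
  hal := by
    have h1 : (1 : ℝ) ≤ b := by exact_mod_cast hb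
    have := c.hal
    positivity
  hcv := c.hcv
  hnv := c.hnv
  hr0 := c.hr0
  hr1 := c.hr1
  hnm := c.hnm

variable {ι τ K Y V : Type*} [Group K] [MeasurableSpace K]
    [NormedAddCommGroup Y] [NormedSpace ℝ Y] [NormedAddCommGroup V] [NormedSpace ℝ V]
    {ν : Measure K} {c : Cst}

/-- the system with the coarse distance -/
def Sys.coarse (S : Sys ι τ K Y V ν c) (b : ℕ) (C0' : ℝ) (hb : 1 ≤ b) (h : c.C0 ≤ C0') :
    Sys ι τ K Y V ν (c.coarse b C0' hb h) where
  d := fun x y => cd b (S.d x y)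
  dself := fun a => by rw [S.dself, cd_zero hb]
  dsymm := fun x y => by rw [S.dsymm]
  dtri := fun x y z => (cd_mono (S.dtri x y z)).trans (cd_add hb _ _)
  growth := fun W z r => by
    have h1 : (W.filter fun y => cd b (S.d z y) ≤ r) = W.filter fun y => S.d z y ≤ r * b :=
      Finset.filter_congr fun y _ => cd_le hb
    rw [h1]
    refine (S.growth W z (r * b)).trans ?_
    show _ ≤ c.Cg * (b : ℝ) ^ c.Dg * ((r : ℝ) + 1) ^ c.Dg
    rw [mul_assoc, ← mul_pow]
    have hCg := c.hCg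
    refine mul_le_mul_of_nonneg_left (pow_le_pow_left₀ (by positivity) ?_ _) (by linarith)
    have h2 : (1 : ℝ) ≤ b := by exact_mod_cast hb
    push_cast
    nlinarith
  Lam := S.Lam
  T := S.T
  sp := S.sp
  diam := fun t ht x hx y hy => cd_one hb (S.diam t ht x hx y hy)
  tcard := S.tcard
  h := S.h
  hloc := S.hloc
  hmeas := S.hmeas
  hbd := S.hbd
  nrm := S.nrm
  nrm_meas := S.nrm_meas
  nrm_nonneg := S.nrm_nonneg
  nrm_one := S.nrm_one
  nrm_mul := S.nrm_mul
  nrm_inv := S.nrm_inv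
  nrm_le := S.nrm_le
  vol := S.vol
  upper := fun A hA φ => (S.upper A hA φ).trans
    (mul_le_mul_of_nonneg_right h (Finset.sum_nonneg fun y _ => by positivity))
  coer := S.coer
  yy := S.yy
  yy_le := S.yy_le
  p := S.p
  ex := S.ex
  Rel := S.Rel
  rel_p := S.rel_p
  p_le := S.p_le
  rel_ex := S.rel_ex
  ex_nrm := S.ex_nrm
  rel_one := S.rel_one
  b := S.b
  cc := S.cc
  b_add := S.b_add
  b_bd := S.b_bd
  cc_bd := S.cc_bd
  taylor := S.taylor
  harm := fun A hA z => by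
    obtain ⟨w, h1, h2, h3⟩ := S.harm A hA z
    refine ⟨w, h1, h2, fun y hy => (h3 y hy).trans ?_⟩
    show _ ≤ c.Ch * Real.exp (c.al * b) * _
    rw [mul_assoc]
    have hCh := c.hCh
    refine mul_le_mul_of_nonneg_left ?_ (by linarith)
    rw [Finset.mul_sum]
    refine Finset.sum_le_sum fun x _ => ?_
    rw [← mul_assoc, ← Real.exp_add]
    refine mul_le_mul_of_nonneg_right (Real.exp_le_exp.2 ?_) (norm_nonneg _)
    show _ ≤ c.al * b + -(c.al * b * (cd b (S.d y x) : ℕ))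
    have h4 : ((cd b (S.d y x) : ℕ) : ℝ) * b ≤ S.d y x + b := by
      exact_mod_cast cd_mul_le hb (S.d y x)
    have h5 := mul_le_mul_of_nonneg_left h4 c.hal.le
    nlinarith

end

end Pool.Agent.N990.Mach
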