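import Pool.Agent.N990.U.CutS
import Pool.Agent.N990.Slab.Infl
import Pool.Agent.N109.SlabU.Basic

/-!
# The constants of the slab are polynomially bounded
-/

set_option autoImplicit false
set_option linter.unusedSectionVars false

open MeasureTheory Matrix
open scoped Matrix.Norms.Frobenius Classical ENNReal

namespace Pool.Agent.N990

noncomputable section

open Pool.Agent.N990.Mach
open Pool.Agent.N109.Slab (CK)

/-! ### Analysis -/

lemma cosh_sub_le {x : ℝ} (h0 : 0 ≤ x) (h1 : x ≤ 1) :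
    2 * Real.cosh x - 2 ≤ x ^ 2 + x ^ 4 / 2 := by
  have h2 := Real.cosh_le_exp_half_sq x
  have h3 : |x ^ 2 / 2| ≤ 1 := by
    rw [abs_of_nonneg (by positivity)]
    nlinarith
  have h4 := Real.abs_exp_sub_one_sub_id_le h3
  have h5 := (abs_le.1 h4).2
  nlinarith

lemma lam0_lower {L : ℕ} (hL : 2 ≤ L) :
    (Real.pi / (2 * L + 1)) ^ 2 - (Real.pi / (2 * L + 1)) ^ 4 / 2 ≤ lam0 L := by
  obtain ⟨θ, hθ⟩ : ∃ θ, θ = Real.pi / (2 * L + 1) := ⟨_, rfl⟩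
  have h0 : 0 ≤ θ := by rw [hθ]; have := Real.pi_pos; positivity
  have h1 : θ ≤ 1 := by
    have h2 : (2 : ℝ) ≤ L := by exact_mod_cast hL
    have := Real.pi_lt_four
    rw [hθ, div_le_one (by linarith)]
    linarith
  have h2 : |θ| ≤ 1 := by rw [abs_of_nonneg h0]; exact h1
  have h3 := (abs_le.1 (Real.cos_bound h2)).2
  rw [abs_of_nonneg h0] at h3
  unfold lam0
  rw [← hθ]
  have : 0 ≤ θ ^ 4 := by positivity
  linarith

/-- the margin of the rate -/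
lemma exists_margin {al : ℝ} (h0 : 0 < al) (h1 : al < Real.pi / 2) :
    ∃ δ > (0 : ℝ), ∃ L₀ : ℕ, ∀ L : ℕ, L₀ ≤ L →
      δ / (L : ℝ) ^ 2 ≤ lam0 L - (2 * Real.cosh (al / (L + 2 : ℕ)) - 2) := by
  have hπ := Real.pi_pos
  obtain ⟨ρ, hρ⟩ : ∃ ρ, ρ = al / (Real.pi / 2) := ⟨_, rfl⟩
  have hρ0 : 0 < ρ := by rw [hρ]; positivity
  have hρ1 : ρ < 1 := by rw [hρ, div_lt_one (by positivity)]; exact h1
  have hρ2 : 0 < 1 - ρ ^ 2 := by nlinarith
  obtain ⟨M, hM⟩ := exists_nat_gt (4 / (1 - ρ ^ 2))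
  refine ⟨(1 - ρ ^ 2) / 2, by linarith, max M 2, fun L hL => ?_⟩
  have hLM : (M : ℝ) ≤ L := by exact_mod_cast (le_max_left _ _).trans hL
  have hL2 : 2 ≤ L := (le_max_right _ _).trans hL
  have hL2' : (2 : ℝ) ≤ L := by exact_mod_cast hL2
  obtain ⟨θ, hθ⟩ : ∃ θ, θ = Real.pi / (2 * L + 1) := ⟨_, rfl⟩
  have hθ0 : 0 < θ := by rw [hθ]; positivity
  have hθ1 : θ * (2 * L + 1) = Real.pi := by rw [hθ]; field_simp
  have hθ2 : 1 / (L : ℝ) ≤ θ := by
    rw [hθ, div_le_div_iff₀ (by linarith) (by linarith)]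
    have := Real.pi_gt_three
    nlinarith
  have hθ3 : θ ≤ 2 / L := by
    rw [hθ, div_le_div_iff₀ (by linarith) (by linarith)]
    have := Real.pi_lt_four
    nlinarith
  have hlam := lam0_lower hL2
  rw [← hθ] at hlam
  obtain ⟨x, hx⟩ : ∃ x, x = al / (L + 2 : ℕ) := ⟨_, rfl⟩
  have hx0 : 0 ≤ x := by rw [hx]; positivity
  have hxθ : x ≤ ρ * θ := by
    have h2 : al = ρ * (Real.pi / 2) := by rw [hρ]; field_simp
    rw [hx, h2, div_le_iff₀ (by positivity), ← hθ1]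
    push_cast
    have : 0 ≤ ρ * θ := by positivity
    nlinarith
  have hL4 : 2 / (L : ℝ) ≤ 1 := by rw [div_le_one (by linarith)]; exact hL2'
  have hθ4 : θ ≤ 1 := hθ3.trans hL4
  have hx1 : x ≤ 1 := by nlinarith
  have hcosh := cosh_sub_le hx0 hx1
  rw [← hx]
  -- the square of the angle
  have hθsq : θ ^ 2 ≤ (1 - ρ ^ 2) / 2 := by
    have h3 : θ ^ 2 ≤ 4 / (L : ℝ) ^ 2 := by
      calc θ ^ 2 ≤ (2 / L) ^ 2 := pow_le_pow_left₀ hθ0.le hθ3 2
        _ = _ := by rw [div_pow]; norm_num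
    refine h3.trans ?_
    rw [div_le_iff₀ (by positivity)]
    rw [div_lt_iff₀ hρ2] at hM
    nlinarith
  have h5 : x ^ 2 ≤ ρ ^ 2 * θ ^ 2 := by
    rw [← mul_pow]
    exact pow_le_pow_left₀ hx0 hxθ 2
  have h6 : x ^ 4 ≤ θ ^ 4 := pow_le_pow_left₀ hx0 (hxθ.trans (by nlinarith)) 4
  have h7 : (1 - ρ ^ 2) / 2 * θ ^ 2 ≤ lam0 L - (2 * Real.cosh x - 2) := by
    have h8 : θ ^ 4 = θ ^ 2 * θ ^ 2 := by ring
    have h9 : 0 ≤ θ ^ 2 := by positivity
    nlinarith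
  refine le_trans ?_ h7
  have h10 : (1 / (L : ℝ)) ^ 2 ≤ θ ^ 2 := pow_le_pow_left₀ (by positivity) hθ2 2
  calc (1 - ρ ^ 2) / 2 / (L : ℝ) ^ 2 = (1 - ρ ^ 2) / 2 * (1 / (L : ℝ)) ^ 2 := by
        rw [div_pow, one_pow]; ring
    _ ≤ _ := mul_le_mul_of_nonneg_left h10 (by linarith)

/-- a rate for all thicknesses -/
lemma margin_all (L : ℕ) (hL : 1 ≤ L) :
    (1 / 4) / (L : ℝ) ^ 2 ≤ lam0 L - (2 * Real.cosh ((1 / 3) / (L + 2 : ℕ)) - 2) := by
  have h1 := (Pool.Agent.N109.SlabU.lam0_ge hL)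
  have hL' : (1 : ℝ) ≤ L := by exact_mod_cast hL
  obtain ⟨x, hx⟩ : ∃ x : ℝ, x = (1 / 3) / (L + 2 : ℕ) := ⟨_, rfl⟩
  have hx0 : 0 ≤ x := by rw [hx]; positivity
  have hx1 : x ≤ (1 / 3) / L := by
    rw [hx]
    push_cast
    exact div_le_div_of_nonneg_left (by norm_num) (by linarith) (by linarith)
  have hx2 : x ≤ 1 := hx1.trans (by rw [div_le_one (by linarith)]; linarith)
  have hcosh := cosh_sub_le hx0 hx2
  rw [← hx]
  have h3 : x ^ 2 ≤ (1 / 9) / (L : ℝ) ^ 2 := by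
    calc x ^ 2 ≤ ((1 / 3) / L) ^ 2 := pow_le_pow_left₀ hx0 hx1 2
      _ = _ := by rw [div_pow]; norm_num
  have h4 : x ^ 4 ≤ x ^ 2 := pow_le_pow_of_le_one hx0 hx2 (by norm_num)
  have h5 : 4 / (9 * (L : ℝ) ^ 2) = (4 / 9) / (L : ℝ) ^ 2 := by field_simp
  rw [h5] at h1
  have h6 : 0 < 1 / (L : ℝ) ^ 2 := by positivity
  have e1 : ∀ a : ℝ, a / (L : ℝ) ^ 2 = a * (1 / (L : ℝ) ^ 2) := fun a => by ring
  rw [e1] at h1 h3 ⊢
  linarith

/-! ### Volume -/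

section vol

variable {N : ℕ} {G : Subgroup (UU N)} [MeasurableSpace G] [BorelSpace G]

lemma vol_U (μ : Measure G) [IsProbabilityMeasure μ] [μ.IsMulLeftInvariant] (D : ℕ) :
    ∃ cv : ℝ, 0 < cv ∧ ∃ d : ℕ, ∀ L : ℕ, ∀ s : ℝ, 0 < s → s ≤ 1 →
      ENNReal.ofReal (cv ^ (D * L) * s ^ ((d * (D * L) : ℕ) : ℝ)) ≤
        Measure.pi (fun _ : Lab D L => μ) {k : Lab D L → G | nrmS k ≤ s} := by
  obtain ⟨c, hc, d, h⟩ := Pool.Agent.N991.MK.vol_lower_ofReal (N := N) (G := G) μ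
  refine ⟨c, hc, d, fun L s hs hs1 => ?_⟩
  have e : {k : Lab D L → G | nrmS k ≤ s} =
      Set.univ.pi fun _ : Lab D L => {g : G | ‖mt g - 1‖ ≤ s} := by
    ext k
    simp only [Set.mem_ofPred_eq, Set.mem_pi, Set.mem_univ, true_implies]
    exact nrmS_le hs.le
  have hcard : Fintype.card (Lab D L) = D * L := by
    rw [Fintype.card_prod, Fintype.card_fin, Fintype.card_fin]
  rw [e, Measure.pi_pi, Finset.prod_const, Finset.card_univ, hcard]
  have h1 := pow_le_pow_left' (h s hs hs1) (D * L)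
  refine le_trans (le_of_eq ?_) h1
  rw [← ENNReal.ofReal_pow (by positivity), mul_pow, ← pow_mul]
  congr 2
  rw [Real.rpow_natCast]

end vol

/-! ### Bounds of the constants -/

section bd

variable {N : ℕ} {G : Subgroup (UU N)}

lemma poly_le {K j : ℕ} {x C a : ℝ} (hx : 1 ≤ x) (hC : C ≤ K) (hj : j ≤ K) (h : a ≤ C * x ^ j) :
    a ≤ K * x ^ K := by
  have h1 : (0 : ℝ) ≤ x ^ j := by positivity
  have h2 : x ^ j ≤ x ^ K := pow_le_pow_right₀ hx hj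
  have h3 : (0 : ℝ) ≤ K := Nat.cast_nonneg _
  calc a ≤ C * x ^ j := h
    _ ≤ K * x ^ j := mul_le_mul_of_nonneg_right hC h1
    _ ≤ _ := mul_le_mul_of_nonneg_left h2 h3

/-- **The constants are polynomially bounded.** -/
theorem bdU (X : LieG G) (D : ℕ) {al δ : ℝ} (hal : 0 < al) (hδ : 0 < δ) {cv : ℝ} (hcv : 0 < cv)
    (d : ℕ) : ∃ K : ℕ, ∀ L : ℕ, 1 ≤ L →
      δ / (L : ℝ) ^ 2 ≤ lam0 L - (2 * Real.cosh (al / (L + 2 : ℕ)) - 2) →
      ∀ (hL : 0 < lam0 L) (hα : 0 < al / (L + 2 : ℕ)) (hcv' : 0 < cv ^ (D * L))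
        (hnv : (0 : ℝ) ≤ ((d * (D * L) : ℕ) : ℝ)),
      Bd ((cstS X D L (al / (L + 2 : ℕ)) (cv ^ (D * L)) ((d * (D * L) : ℕ) : ℝ)
        hL hα hcv' hnv).coarse (L + 2) (CU D L) (by omega) (CU_ge1 D L)) ((K : ℝ) * (L : ℝ) ^ K) := by
  obtain ⟨Ck, hCk⟩ : ∃ Ck : ℝ, Ck = (((1 + ((D + 1) * (4 * D + 16 * (D * D))) / δ *
    Real.exp (2 * al)) * D + 1) * Real.exp al) := ⟨_, rfl⟩
  obtain ⟨M, hM⟩ := exists_nat_ge (6 ^ D + CU D 1 + 9 / 2 + (D + 1) + CT D 1 (X.C + 1) + CB D 1 +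
    Ck + D * |Real.log cv| + d * D + 1 + (2 * N + 1))
  have hXC := X.hC
  have p1 : (0 : ℝ) ≤ 6 ^ D := by positivity
  have p2 : 0 ≤ CU D 1 := le_trans (K1_nonneg D 1) (CU_ge2 D 1)
  have p3 : 0 ≤ CT D 1 (X.C + 1) := by unfold CT; positivity
  have p4 : 0 ≤ CB D 1 := CB_nonneg D 1
  have p5 : 0 ≤ Ck := by rw [hCk]; positivity
  have p6 : 0 ≤ (D : ℝ) * |Real.log cv| := by positivity
  have p7 : (0 : ℝ) ≤ d * D := by positivity
  have p8 : (0 : ℝ) ≤ D := Nat.cast_nonneg _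
  have p9 : (0 : ℝ) ≤ N := Nat.cast_nonneg _
  obtain ⟨K, hK⟩ : ∃ K, K = max M (D + 4) := ⟨_, rfl⟩
  have hMK : (M : ℝ) ≤ K := by rw [hK]; exact_mod_cast le_max_left _ _
  have hDK : D + 4 ≤ K := by rw [hK]; exact le_max_right _ _
  refine ⟨K, fun L hL1 hmar hL hα hcv' hnv => ?_⟩
  have hx : (1 : ℝ) ≤ L := by exact_mod_cast hL1
  have hx0 : (0 : ℝ) < L := by linarith
  have hKx : (0 : ℝ) ≤ (K : ℝ) * (L : ℝ) ^ K := by positivity
  refine ⟨?_, ?_, ?_, ?_, ?_, ?_, ?_, ?_, ?_, ?_, ?_⟩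
  · show (2 : ℝ) ^ D * ((L + 2 : ℕ) : ℝ) ^ D ≤ _
    refine poly_le (j := D) (C := 6 ^ D) hx (by linarith) (by omega) ?_
    rw [← mul_pow, ← mul_pow]
    refine pow_le_pow_left₀ (by positivity) ?_ D
    push_cast; linarith
  · show CU D L ≤ _
    refine poly_le (j := 1) (C := CU D 1) hx (by linarith) (by omega) ?_
    unfold CU K1
    push_cast
    rw [pow_one]
    have h1 : (0 : ℝ) ≤ D := p8
    nlinarith
  · show 1 ≤ lam0 L / 2 * _
    have h1 := Pool.Agent.N109.SlabU.lam0_ge hL1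
    have h2 : 9 / 2 * (L : ℝ) ^ 2 ≤ (K : ℝ) * (L : ℝ) ^ K :=
      poly_le (j := 2) (C := 9 / 2) hx (by linarith) (by omega) le_rfl
    calc (1 : ℝ) = 4 / (9 * (L : ℝ) ^ 2) / 2 * (9 / 2 * (L : ℝ) ^ 2) := by field_simp; norm_num
      _ ≤ lam0 L / 2 * (9 / 2 * (L : ℝ) ^ 2) := by
          refine mul_le_mul_of_nonneg_right ?_ (by positivity)
          linarith
      _ ≤ _ := mul_le_mul_of_nonneg_left h2 (by positivity)
  · show (D : ℝ) + 1 ≤ _
    refine poly_le (j := 0) (C := D + 1) hx (by linarith) (by omega) (by simp)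
  · show CT D L (X.C + 1) ≤ _
    refine poly_le (j := 1) (C := CT D 1 (X.C + 1)) hx (by linarith) (by omega) ?_
    unfold CT
    push_cast
    rw [pow_one]
    nlinarith
  · show CB D L ≤ _
    refine poly_le (j := 1) (C := CB D 1) hx (by linarith) (by omega) ?_
    unfold CB
    push_cast
    rw [pow_one]
    nlinarith
  · show (|CK D L (al / (L + 2 : ℕ)) * (D * L)| + 1) *
      Real.exp (al / (L + 2 : ℕ) * (L + 2 : ℕ)) ≤ _
    refine poly_le (j := 4) (C := Ck) hx (by linarith) (by omega) ?_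
    have e1 : al / ((L + 2 : ℕ) : ℝ) * ((L + 2 : ℕ) : ℝ) = al :=
      div_mul_cancel₀ al (by positivity)
    rw [e1]
    have hmp : 0 < δ / (L : ℝ) ^ 2 := by positivity
    have h2 : CK D L (al / (L + 2 : ℕ)) ≤ (1 + ((D + 1) * (4 * D + 16 * (D * D))) / δ *
        Real.exp (2 * al)) * (L : ℝ) ^ 3 := by
      unfold CK
      have h3 : ((D : ℝ) + 1) * (4 * (D * L) + 16 * (D * D * L)) /
          (lam0 L - (2 * Real.cosh (al / (L + 2 : ℕ)) - 2)) ≤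
          ((D + 1) * (4 * D + 16 * (D * D))) / δ * (L : ℝ) ^ 3 := by
        calc _ ≤ ((D : ℝ) + 1) * (4 * (D * L) + 16 * (D * D * L)) / (δ / (L : ℝ) ^ 2) :=
              div_le_div_of_nonneg_left (by positivity) hmp hmar
          _ = _ := by field_simp
      have h4 : Real.exp (2 * (al / (L + 2 : ℕ))) ≤ Real.exp (2 * al) := by
        refine Real.exp_le_exp.2 (mul_le_mul_of_nonneg_left ?_ (by norm_num))
        refine div_le_self hal.le ?_
        push_cast; linarith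
      have h5 : (1 : ℝ) ≤ (L : ℝ) ^ 3 := one_le_pow₀ hx
      have h6 : 0 ≤ ((D : ℝ) + 1) * (4 * (D * L) + 16 * (D * D * L)) /
          (lam0 L - (2 * Real.cosh (al / (L + 2 : ℕ)) - 2)) :=
        div_nonneg (by positivity) (hmp.le.trans hmar)
      have h7 := mul_le_mul h3 h4 (Real.exp_pos _).le (by positivity)
      calc _ ≤ (L : ℝ) ^ 3 + ((D + 1) * (4 * D + 16 * (D * D))) / δ * (L : ℝ) ^ 3 *
            Real.exp (2 * al) := add_le_add h5 h7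
        _ = _ := by ring
    have h0 : 0 ≤ CK D L (al / (L + 2 : ℕ)) := by
      unfold CK
      have h6 : 0 ≤ ((D : ℝ) + 1) * (4 * (D * L) + 16 * (D * D * L)) /
          (lam0 L - (2 * Real.cosh (al / (L + 2 : ℕ)) - 2)) :=
        div_nonneg (by positivity) (hmp.le.trans hmar)
      positivity
    rw [abs_of_nonneg (by positivity)]
    obtain ⟨Q, hQ⟩ : ∃ Q : ℝ, Q = 1 + ((D + 1) * (4 * D + 16 * (D * D))) / δ *
        Real.exp (2 * al) := ⟨_, rfl⟩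
    rw [← hQ] at h2 hCk
    have h8 : CK D L (al / (L + 2 : ℕ)) * (D * L) ≤ Q * (L : ℝ) ^ 3 * (D * L) :=
      mul_le_mul_of_nonneg_right h2 (by positivity)
    have h9 : (1 : ℝ) ≤ (L : ℝ) ^ 4 := one_le_pow₀ hx
    rw [hCk]
    calc (CK D L (al / (L + 2 : ℕ)) * (D * L) + 1) * Real.exp al ≤
          (Q * (L : ℝ) ^ 3 * (D * L) + (L : ℝ) ^ 4) * Real.exp al :=
          mul_le_mul_of_nonneg_right (add_le_add h8 h9) (Real.exp_pos _).le
      _ = _ := by ring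
  · show -Real.log (cv ^ (D * L)) ≤ _
    refine poly_le (j := 1) (C := D * |Real.log cv|) hx (by linarith) (by omega) ?_
    rw [Real.log_pow, pow_one]
    push_cast
    have h1 := neg_abs_le (Real.log cv)
    have h2 : (0 : ℝ) ≤ D * L := by positivity
    nlinarith
  · show ((d * (D * L) : ℕ) : ℝ) ≤ _
    refine poly_le (j := 1) (C := d * D) hx (by linarith) (by omega) ?_
    push_cast
    rw [pow_one]
    linarith
  · show (1 : ℝ) ≤ 1 * _
    rw [one_mul]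
    exact poly_le (j := 0) (C := 1) hx (by linarith) (by omega) (by simp)
  · show 2 * (N : ℝ) + 1 ≤ _
    exact poly_le (j := 0) (C := 2 * N + 1) hx (by linarith) (by omega) (by simp)

end bd

end

end Pool.Agent.N990
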