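import Pool.Agent.N990.U.Slide
import Pool.Agent.N990.U.Coarse
import Pool.Agent.N990.U.Flt
import Pool.Agent.N990.Slab.Inst

/-!
# Cutting in the slab
-/

set_option autoImplicit false
set_option linter.unusedSectionVars false

open MeasureTheory Matrix
open scoped Matrix.Norms.Frobenius Classical ENNReal

namespace Pool.Agent.N990

noncomputable section

open Pool.Agent.N990.Mach

variable {N D L : ℕ} {G : Subgroup (UU N)}

/-- constant in the continuity of the energy -/
def K1 (D L : ℕ) : ℝ := (8 * D + 8) * ((D + 1) * (D * L))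

lemma K1_nonneg (D L : ℕ) : 0 ≤ K1 D L := by unfold K1; positivity

lemma sum_spS_ge (f : Site D → ℝ) (hf : ∀ y, 0 ≤ f y) (x : Site D) :
    f x + ∑ i : Fin D, f (x + ev i) ≤ (D + 1) * ∑ y ∈ spS x, f y := by
  have h1 : ∀ y ∈ spS x, f y ≤ ∑ y ∈ spS x, f y := fun y hy =>
    Finset.single_le_sum (f := f) (fun y _ => hf y) hy
  have h2 : ∑ i : Fin D, f (x + ev i) ≤ ∑ i : Fin D, ∑ y ∈ spS x, f y :=
    Finset.sum_le_sum fun i _ => h1 _ (mem_spS.2 (Or.inr ⟨i, rfl⟩))
  rw [Finset.sum_const, Finset.card_univ, Fintype.card_fin, nsmul_eq_mul] at h2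
  have h3 := h1 x (mem_spS.2 (Or.inl rfl))
  linarith

lemma sum_spS_le (f : Site D → ℝ) (hf : ∀ y, 0 ≤ f y) (x : Site D) :
    ∑ y ∈ spS x, f y ≤ f x + ∑ i : Fin D, f (x + ev i) := by
  have hinj : ∀ i ∈ (Finset.univ : Finset (Fin D)), ∀ j ∈ (Finset.univ : Finset (Fin D)),
      x + ev i = x + ev j → i = j := by
    intro i _ j _ h
    have h2 : (ev i : Site D) = ev j := add_left_cancel h
    by_contra hne
    have h3 := congrFun h2 i
    rw [ev_apply, ev_apply, if_pos rfl, if_neg hne] at h3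
    exact one_ne_zero h3
  unfold spS
  by_cases hx : x ∈ Finset.univ.image fun i : Fin D => x + ev i
  · rw [Finset.insert_eq_of_mem hx, Finset.sum_image hinj]
    have := hf x
    linarith
  · rw [Finset.sum_insert hx, Finset.sum_image hinj]

lemma contS (g σ : Site D → Lab D L → G) (x : Site D) :
    hx (σ * g) x ≤ 2 * hx σ x + K1 D L * ∑ y ∈ spS x, nrmS (g y) ^ 2 := by
  have h1 := hx_mul_le g σ x
  have h2 := sum_spS_ge (es g) (es_nonneg g) x
  have h3 : ∑ y ∈ spS x, es g y ≤ (D * L) * ∑ y ∈ spS x, nrmS (g y) ^ 2 := by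
    rw [Finset.mul_sum]
    exact Finset.sum_le_sum fun y _ => es_le_nrm g y
  have h4 : (8 * (D : ℝ) + 8) * (es g x + ∑ i, es g (x + ev i)) ≤
      (8 * D + 8) * (((D : ℝ) + 1) * ((D * L) * ∑ y ∈ spS x, nrmS (g y) ^ 2)) := by
    refine mul_le_mul_of_nonneg_left (h2.trans ?_) (by positivity)
    exact mul_le_mul_of_nonneg_left h3 (by positivity)
  unfold K1
  calc _ ≤ _ := h1
    _ ≤ 2 * hx σ x + (8 * D + 8) * (((D : ℝ) + 1) * ((D * L) *
        ∑ y ∈ spS x, nrmS (g y) ^ 2)) := add_le_add le_rfl h4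
    _ = _ := by ring

lemma spS_tri {z x y y' : Site D} (hy : y ∈ spS x) (hy' : y' ∈ spS x) :
    dd z y ≤ dd z y' + 1 := by
  have h1 := dd_tri z y' y
  have h2 := spS_diam hy' hy
  omega

/-- **Cutting in the slab.** -/
theorem cut_slab (A : Finset (Site D)) (z : Site D) (r : ℕ) (φ : Site D → Lab D L → G) :
    ∃ φ' : Site D → Lab D L → G,
      (∀ y, y ∉ A.filter (fun y => cd (L + 2) (dd z y) ≤ r + 1) → φ' y = φ y) ∧
      ∑ x ∈ Ns (A.filter fun y => cd (L + 2) (dd z y) ≤ r + 1), hx φ' x ≤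
        (12 * D + 6) * (∑ x ∈ Ns (A.filter fun y => cd (L + 2) (dd z y) ≤ r + 1), hx φ x -
          ∑ x ∈ Ns (A.filter fun y => cd (L + 2) (dd z y) ≤ r), hx φ x) +
        (4 * K1 D L + 24 * (D * L)) * (D + 1) *
          ∑ y ∈ (clS (A.filter fun y => cd (L + 2) (dd z y) ≤ r + 1) \
            (A.filter fun y => cd (L + 2) (dd z y) ≤ r + 1)).filter (fun y => y ∉ A),
            nrmS (φ y) ^ 2 := by
  have hb : 1 ≤ L + 2 := by omega
  obtain ⟨B1, hB1⟩ : ∃ B1, B1 = A.filter fun y => cd (L + 2) (dd z y) ≤ r + 1 := ⟨_, rfl⟩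
  obtain ⟨B0, hB0⟩ : ∃ B0, B0 = A.filter fun y => cd (L + 2) (dd z y) ≤ r := ⟨_, rfl⟩
  rw [← hB1, ← hB0]
  have m1 : ∀ y, y ∈ B1 ↔ y ∈ A ∧ dd z y ≤ (r + 1) * (L + 2) := by
    intro y; rw [hB1, Finset.mem_filter, cd_le hb]
  have m0 : ∀ y, y ∈ B0 ↔ y ∈ A ∧ dd z y ≤ r * (L + 2) := by
    intro y; rw [hB0, Finset.mem_filter, cd_le hb]
  obtain ⟨c, hc⟩ : ∃ c, c = (r + 1) * (L + 2) := ⟨_, rfl⟩
  have hc2 : c = r * (L + 2) + (L + 2) := by rw [hc]; ring
  rw [← hc] at m1
  have h01 : B0 ⊆ B1 := by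
    intro y hy
    rw [m0] at hy
    rw [m1]
    exact ⟨hy.1, by omega⟩
  obtain ⟨k, hk⟩ : ∃ k : Site D → ℕ, k = fun y => min L (c - dd z y) := ⟨_, rfl⟩
  obtain ⟨τ, hτ⟩ : ∃ τ : Site D → Lab D L → G, τ = fun y => slc (k y) (φ y) := ⟨_, rfl⟩
  obtain ⟨φ', hφ'⟩ : ∃ φ' : Site D → Lab D L → G, φ' = fun y => if y ∈ A then τ y else φ y :=
    ⟨_, rfl⟩
  refine ⟨φ', fun y hy => ?_, ?_⟩
  · rw [hφ']
    simp only
    split_ifs with h
    · have h1 : k y = 0 := by
        rw [m1, not_and] at hy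
        have := hy h
        rw [hk]
        simp only
        omega
      rw [hτ]
      simp only [h1, slc_zero]
    · rfl
  -- the frozen part
  obtain ⟨f, hf⟩ : ∃ f : Site D → ℝ, f = fun y => if y ∈ A then 0 else nrmS (φ y) ^ 2 := ⟨_, rfl⟩
  have hf0 : ∀ y, 0 ≤ f y := fun y => by rw [hf]; simp only; split_ifs <;> positivity
  have hlip : ∀ x i, dd z (x + ev i) ≤ dd z x + 1 ∧ dd z x ≤ dd z (x + ev i) + 1 := fun x i =>
    ⟨spS_tri (x := x) (mem_spS.2 (Or.inr ⟨i, rfl⟩)) (mem_spS.2 (Or.inl rfl)),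
      spS_tri (x := x) (mem_spS.2 (Or.inl rfl)) (mem_spS.2 (Or.inr ⟨i, rfl⟩))⟩
  -- comparison of `φ'` with `τ`
  have c1 : ∀ x, hx φ' x ≤ 2 * hx τ x + 4 * K1 D L * (f x + ∑ i, f (x + ev i)) := by
    intro x
    obtain ⟨g, hg⟩ : ∃ g : Site D → Lab D L → G, g = τ⁻¹ * φ' := ⟨_, rfl⟩
    have h1 : φ' = τ * g := by rw [hg, mul_inv_cancel_left]
    have h2 := contS g τ x
    rw [← h1] at h2
    have h3 : ∀ y, nrmS (g y) ^ 2 ≤ 4 * f y := by
      intro y
      have h4 : g y = (τ y)⁻¹ * φ' y := by rw [hg]; rfl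
      rw [h4, hφ', hf]
      simp only
      split_ifs with h
      · rw [inv_mul_cancel, nrmS_one]; norm_num
      · have h5 := nrmS_mul (τ y)⁻¹ (φ y)
        rw [nrmS_inv] at h5
        have h6 : nrmS (τ y) ≤ nrmS (φ y) := by rw [hτ]; exact nrmS_slc _ _
        have h7 := nrmS_nonneg ((τ y)⁻¹ * φ y)
        nlinarith
    have h8 : ∑ y ∈ spS x, nrmS (g y) ^ 2 ≤ 4 * (f x + ∑ i, f (x + ev i)) := by
      calc ∑ y ∈ spS x, nrmS (g y) ^ 2 ≤ ∑ y ∈ spS x, 4 * f y :=
            Finset.sum_le_sum fun y _ => h3 y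
        _ = 4 * ∑ y ∈ spS x, f y := by rw [Finset.mul_sum]
        _ ≤ _ := mul_le_mul_of_nonneg_left (sum_spS_le f hf0 x) (by norm_num)
    have h9 := mul_le_mul_of_nonneg_left h8 (K1_nonneg D L)
    linarith
  obtain ⟨R, hR⟩ : ∃ R, R = Ns B1 \ Ns B0 := ⟨_, rfl⟩
  -- the slid configuration
  have c2 : ∀ x ∈ Ns B1, hx τ x ≤ 3 * (if x ∈ R then hx φ x else 0) +
      (6 * ∑ i, (if x + ev i ∈ R then hx φ (x + ev i) else 0) +
        12 * (D * L) * (f x + ∑ i, f (x + ev i))) := by
    intro x hx1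
    have hn1 : 0 ≤ 3 * (if x ∈ R then hx φ x else 0) := by
      split_ifs
      · have := hx_nonneg φ x; positivity
      · simp
    have hn2 : 0 ≤ 6 * ∑ i, (if x + ev i ∈ R then hx φ (x + ev i) else 0) := by
      have : 0 ≤ ∑ i, (if x + ev i ∈ R then hx φ (x + ev i) else 0) :=
        Finset.sum_nonneg fun i _ => by
          split_ifs
          · exact hx_nonneg φ _
          · exact le_rfl
      positivity
    have hn3 : 0 ≤ 12 * ((D : ℝ) * L) * (f x + ∑ i, f (x + ev i)) := by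
      have h1 := hf0 x
      have h2 : 0 ≤ ∑ i, f (x + ev i) := Finset.sum_nonneg fun i _ => hf0 _
      positivity
    by_cases hdeep : ∀ y ∈ spS x, L ≤ c - dd z y
    · have h1 : hx τ x = 0 := by
        refine hx_triv τ x fun y hy => ?_
        have h2 : τ y = slc (k y) (φ y) := by rw [hτ]
        have h3 : L ≤ k y := by
          have h4 := hdeep y hy
          have h5 : k y = min L (c - dd z y) := by rw [hk]
          omega
        rw [h2]
        exact slc_top h3 _
      rw [h1]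
      exact add_nonneg hn1 (add_nonneg hn2 hn3)
    · push Not at hdeep
      obtain ⟨y0, hy0, hy0'⟩ := hdeep
      have hfar : ∀ y ∈ spS x, c ≤ dd z y + L := by
        intro y hy
        have := spS_tri (z := z) hy0 hy
        omega
      have hxR : x ∈ R := by
        rw [hR, Finset.mem_sdiff]
        refine ⟨hx1, fun h => ?_⟩
        rw [mem_Ns] at h
        rcases h with h | ⟨i, h⟩
        · have h1 := hfar x (mem_spS.2 (Or.inl rfl))
          have h2 := ((m0 _).1 h).2
          omega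
        · have h1 := hfar _ (mem_spS.2 (Or.inr ⟨i, rfl⟩))
          have h2 := ((m0 _).1 h).2
          omega
      have hsl := hx_slide k φ x fun i => by
        have := hlip x i
        rw [hk]
        simp only
        omega
      rw [← hτ] at hsl
      refine hsl.trans ?_
      rw [if_pos hxR]
      refine add_le_add le_rfl ?_
      have h5 : ∀ i, (if k (x + ev i) = k x then 0 else Vc (φ (x + ev i))) ≤
          2 * (if x + ev i ∈ R then hx φ (x + ev i) else 0) + 4 * (D * L) * f (x + ev i) := by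
        intro i
        have hp1 : 0 ≤ 2 * (if x + ev i ∈ R then hx φ (x + ev i) else 0) := by
          split_ifs
          · have := hx_nonneg φ (x + ev i); positivity
          · simp
        have hp2 : 0 ≤ 4 * ((D : ℝ) * L) * f (x + ev i) := by
          have := hf0 (x + ev i); positivity
        by_cases hki : k (x + ev i) = k x
        · rw [if_pos hki]; positivity
        · rw [if_neg hki]
          by_cases hA : x + ev i ∈ A
          · have hR' : x + ev i ∈ R := by
              have hl := hlip x i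
              have hd : dd z (x + ev i) ≤ c := by
                by_contra hcon
                apply hki
                rw [hk]
                simp only
                omega
              have hB : x + ev i ∈ B1 := (m1 _).2 ⟨hA, hd⟩
              rw [hR, Finset.mem_sdiff]
              refine ⟨mem_Ns.2 (Or.inl hB), fun h => ?_⟩
              have h1 := hfar _ (mem_spS.2 (Or.inr ⟨i, rfl⟩))
              rw [mem_Ns] at h
              rcases h with h | ⟨j, h⟩
              · have h2 := ((m0 _).1 h).2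
                omega
              · have h2 := ((m0 _).1 h).2
                have h3 := (hlip (x + ev i) j).2
                omega
            rw [if_pos hR']
            have := Vc_le_hx φ (x + ev i)
            linarith
          · have h6 : f (x + ev i) = nrmS (φ (x + ev i)) ^ 2 := by rw [hf]; exact if_neg hA
            have h7 := Vc_le_nrm (φ (x + ev i))
            rw [h6]
            linarith
      have h6 : ∑ i, (if k (x + ev i) = k x then 0 else Vc (φ (x + ev i))) ≤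
          2 * ∑ i, (if x + ev i ∈ R then hx φ (x + ev i) else 0) +
            4 * (D * L) * ∑ i, f (x + ev i) := by
        rw [Finset.mul_sum, Finset.mul_sum, ← Finset.sum_add_distrib]
        exact Finset.sum_le_sum fun i _ => h5 i
      have h7 : 0 ≤ 12 * ((D : ℝ) * L) * f x := by
        have := hf0 x; positivity
      nlinarith
  -- sums
  have s0 : ∑ x ∈ Ns B1, hx φ x - ∑ x ∈ Ns B0, hx φ x = ∑ x ∈ R, hx φ x := by
    rw [hR, ← Finset.sum_sdiff (Ns_mono h01)]
    ring
  have s1 : ∑ x ∈ Ns B1, (if x ∈ R then hx φ x else 0) ≤ ∑ x ∈ R, hx φ x := by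
    rw [← Finset.sum_filter]
    refine Finset.sum_le_sum_of_subset_of_nonneg (fun x hx => (Finset.mem_filter.1 hx).2)
      fun x _ _ => hx_nonneg φ x
  have s2 : ∑ x ∈ Ns B1, ∑ i, (if x + ev i ∈ R then hx φ (x + ev i) else 0) ≤
      D * ∑ x ∈ R, hx φ x := by
    rw [Finset.sum_comm]
    calc _ ≤ ∑ i : Fin D, ∑ x ∈ R, hx φ x := by
          refine Finset.sum_le_sum fun i _ => ?_
          rw [← Finset.sum_filter, ← Finset.sum_image (f := fun y => hx φ y)
            (g := fun x => x + ev i) fun x _ y _ h => add_right_cancel h]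
          refine Finset.sum_le_sum_of_subset_of_nonneg ?_ fun x _ _ => hx_nonneg φ x
          intro y hy
          obtain ⟨x, hx, rfl⟩ := Finset.mem_image.1 hy
          exact (Finset.mem_filter.1 hx).2
      _ = _ := by rw [Finset.sum_const, Finset.card_univ, Fintype.card_fin, nsmul_eq_mul]
  have s3 : ∑ x ∈ Ns B1, (f x + ∑ i, f (x + ev i)) ≤ (D + 1) *
      ∑ y ∈ (clS B1 \ B1).filter (fun y => y ∉ A), nrmS (φ y) ^ 2 := by
    have h1 := sum_sp_le (Ns B1) (clS B1) f hf0 fun x hx y hy =>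
      Finset.mem_biUnion.2 ⟨x, hx, hy⟩
    refine h1.trans (mul_le_mul_of_nonneg_left ?_ (by positivity))
    have h2 : ∑ y ∈ clS B1, f y = ∑ y ∈ (clS B1).filter (fun y => y ∉ A), nrmS (φ y) ^ 2 := by
      rw [Finset.sum_filter]
      refine Finset.sum_congr rfl fun y _ => ?_
      rw [hf]
      simp only
      split_ifs <;> simp_all
    rw [h2]
    refine Finset.sum_le_sum_of_subset_of_nonneg ?_ fun y _ _ => by positivity
    intro y hy
    obtain ⟨h3, h4⟩ := Finset.mem_filter.1 hy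
    refine Finset.mem_filter.2 ⟨Finset.mem_sdiff.2 ⟨h3, fun h5 => h4 ((m1 y).1 h5).1⟩, h4⟩
  have s4 : ∑ x ∈ Ns B1, hx φ' x ≤ ∑ x ∈ Ns B1,
      (6 * (if x ∈ R then hx φ x else 0) +
        12 * ∑ i, (if x + ev i ∈ R then hx φ (x + ev i) else 0) +
        (4 * K1 D L + 24 * (D * L)) * (f x + ∑ i, f (x + ev i))) := by
    refine Finset.sum_le_sum fun x hx1 => ?_
    have h1 := c1 x
    have h2 := c2 x hx1
    linarith
  rw [Finset.sum_add_distrib, Finset.sum_add_distrib, ← Finset.mul_sum, ← Finset.mul_sum,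
    ← Finset.mul_sum] at s4
  rw [s0]
  have hK : 0 ≤ 4 * K1 D L + 24 * ((D : ℝ) * L) := by
    have := K1_nonneg D L
    positivity
  have s5 := mul_le_mul_of_nonneg_left s3 hK
  linarith

/-- the upper constant for the coarse system -/
def CU (D L : ℕ) : ℝ :=
  (4 * D + 4) * ((D + 1) * (D * L)) + 1 + K1 D L + (4 * K1 D L + 24 * (D * L)) * (D + 1)

lemma CU_ge1 (D L : ℕ) : (4 * (D : ℝ) + 4) * ((D + 1) * (D * L)) + 1 ≤ CU D L := by
  have := K1_nonneg D L
  unfold CU
  have : 0 ≤ (4 * K1 D L + 24 * ((D : ℝ) * L)) * (D + 1) := by positivity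
  linarith

lemma CU_ge2 (D L : ℕ) : K1 D L ≤ CU D L := by
  have := K1_nonneg D L
  unfold CU
  have : 0 ≤ (4 * K1 D L + 24 * ((D : ℝ) * L)) * (D + 1) := by positivity
  have : 0 ≤ (4 * (D : ℝ) + 4) * ((D + 1) * (D * L)) := by positivity
  linarith

lemma CU_ge3 (D L : ℕ) : (4 * K1 D L + 24 * ((D : ℝ) * L)) * (D + 1) ≤ CU D L := by
  have := K1_nonneg D L
  unfold CU
  have : 0 ≤ (4 * (D : ℝ) + 4) * ((D + 1) * (D * L)) := by positivity
  linarith

section sys

variable [MeasurableSpace G] [BorelSpace G]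

/-- **The slab system with the coarse distance.** -/
def sysU (μ : Measure G) (X : LieG G) {α cv nv : ℝ} (hL : 0 < lam0 L) (hα : 0 < α)
    (h : 2 * Real.cosh α - 2 < lam0 L) (hcv : 0 < cv) (hnv : 0 ≤ nv)
    (hvol : ∀ s : ℝ, 0 < s → s ≤ 1 → ENNReal.ofReal (cv * s ^ nv) ≤
      Measure.pi (fun _ : Lab D L => μ) {k | nrmS k ≤ s}) (V : Finset (Site D)) :
    Sys (Site D) (Site D) (Lab D L → G) (Lab D L → Mt N) (Lab D L → X.g)
      (Measure.pi fun _ : Lab D L => μ)
      ((cstS X D L α cv nv hL hα hcv hnv).coarse (L + 2) (CU D L) (by omega) (CU_ge1 D L)) :=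
  (sysS μ X hL hα h hcv hnv hvol V).coarse (L + 2) (CU D L) (by omega) (CU_ge1 D L)

theorem cutU (μ : Measure G) (X : LieG G) {α cv nv : ℝ} (hL : 0 < lam0 L) (hα : 0 < α)
    (h : 2 * Real.cosh α - 2 < lam0 L) (hcv : 0 < cv) (hnv : 0 ≤ nv)
    (hvol : ∀ s : ℝ, 0 < s → s ≤ 1 → ENNReal.ofReal (cv * s ^ nv) ≤
      Measure.pi (fun _ : Lab D L => μ) {k | nrmS k ≤ s}) (V : Finset (Site D)) :
    Cut (sysU μ X hL hα h hcv hnv hvol V) (12 * D + 6) where
  nn := fun t _ φ => hx_nonneg φ t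
  cont := fun t _ g φ => by
    have h1 := contS g φ t
    have h2 : 0 ≤ ∑ y ∈ spS t, nrmS (g y) ^ 2 := Finset.sum_nonneg fun _ _ => by positivity
    exact h1.trans (add_le_add le_rfl (mul_le_mul_of_nonneg_right (CU_ge2 D L) h2))
  cut := fun A hA z r φ => by
    obtain ⟨φ', h1, h2⟩ := cut_slab A z r φ
    refine ⟨φ', h1, ?_⟩
    have e1 : (sysU μ X hL hα h hcv hnv hvol V).Bl A z (r + 1) =
      A.filter fun y => cd (L + 2) (dd z y) ≤ r + 1 := rfl
    have e0 : (sysU μ X hL hα h hcv hnv hvol V).Bl A z r =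
      A.filter fun y => cd (L + 2) (dd z y) ≤ r := rfl
    have hHA : ∀ B : Finset (Site D), B ⊆ V → ∀ χ,
        (sysU μ X hL hα h hcv hnv hvol V).HA B χ = ∑ x ∈ Ns B, hx χ x := by
      intro B hB χ
      show ∑ x ∈ tch (Ns V) spS B, hx χ x = _
      rw [tch_Ns hB]
    have hbd : ∀ B : Finset (Site D), B ⊆ V →
        (sysU μ X hL hα h hcv hnv hvol V).bd B = clS B \ B := by
      intro B hB
      ext y
      rw [Sys.mem_bd, Finset.mem_sdiff]
      have h3 : y ∈ clS B ↔ ∃ t ∈ Ns V, y ∈ spS t ∧ ∃ x ∈ spS t, x ∈ B := by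
        unfold clS
        rw [Finset.mem_biUnion, ← tch_Ns hB]
        constructor
        · rintro ⟨t, ht, hy⟩
          obtain ⟨h4, h5⟩ := mem_tchG.1 ht
          exact ⟨t, h4, hy, h5⟩
        · rintro ⟨t, ht, hy, h5⟩
          exact ⟨t, mem_tchG.2 ⟨ht, h5⟩, hy⟩
      rw [h3]
      exact and_comm
    have hAV : A ⊆ V := hA
    rw [e1, e0, hHA _ ((Finset.filter_subset _ _).trans hAV),
      hHA _ ((Finset.filter_subset _ _).trans hAV),
      hHA _ ((Finset.filter_subset _ _).trans hAV),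
      hbd _ ((Finset.filter_subset _ _).trans hAV)]
    refine h2.trans (add_le_add le_rfl ?_)
    refine (mul_le_mul_of_nonneg_right (CU_ge3 D L) ?_).trans (le_of_eq ?_)
    · exact Finset.sum_nonneg fun y _ => by positivity
    · congr

end sys

end

end Pool.Agent.N990
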