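import Pool.Agent.N990.Slab.Lin

/-!
# Sliding the field away from the wall
-/

set_option autoImplicit false
set_option linter.unusedSectionVars false

open MeasureTheory Matrix
open scoped Matrix.Norms.Frobenius Classical

namespace Pool.Agent.N990

noncomputable section

variable {N D L : ℕ} {G : Subgroup (UU N)}

lemma sum_shift_le {I : Type*} (B : Finset (I × Fin L))
    (hB : ∀ p ∈ B, ∀ s : Fin L, (p.1, s) ∈ B) (F : I × Fin L → ℝ) (hF : ∀ p, 0 ≤ F p) (k : ℕ) :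
    ∑ p ∈ B, (if h : k ≤ (p.2 : ℕ) then F (p.1, ⟨(p.2 : ℕ) - k, by omega⟩) else 0) ≤
      ∑ p ∈ B, F p := by
  obtain ⟨f, hf⟩ : ∃ f : I × Fin L → I × Fin L,
    f = fun p => (p.1, ⟨(p.2 : ℕ) - k, by omega⟩) := ⟨_, rfl⟩
  have h1 : ∑ p ∈ B, (if h : k ≤ (p.2 : ℕ) then F (p.1, ⟨(p.2 : ℕ) - k, by omega⟩) else 0) =
      ∑ p ∈ B.filter (fun p => k ≤ (p.2 : ℕ)), F (f p) := by
    rw [Finset.sum_filter]
    refine Finset.sum_congr rfl fun p _ => ?_
    by_cases h : k ≤ (p.2 : ℕ)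
    · rw [dif_pos h, if_pos h, hf]
    · rw [dif_neg h, if_neg h]
  rw [h1]
  have hinj : Set.InjOn f (B.filter fun p => k ≤ (p.2 : ℕ)) := by
    intro p hp q hq hpq
    rw [Finset.mem_coe, Finset.mem_filter] at hp hq
    rw [hf] at hpq
    simp only [Prod.mk.injEq, Fin.mk.injEq] at hpq
    ext
    · exact hpq.1
    · have := hp.2; have := hq.2; have := hpq.2
      omega
  rw [← Finset.sum_image (f := F) hinj]
  refine Finset.sum_le_sum_of_subset_of_nonneg ?_ fun p _ _ => hF p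
  intro q hq
  obtain ⟨p, hp, rfl⟩ := Finset.mem_image.1 hq
  rw [hf]
  exact hB p (Finset.mem_filter.1 hp).1 _

/-- sliding a column up by `k` layers -/
def slc (k : ℕ) (u : Lab D L → G) : Lab D L → G := fun a =>
  if h : k ≤ (a.2 : ℕ) then u (a.1, ⟨(a.2 : ℕ) - k, by omega⟩) else 1

/-- sliding a vector valued column up by `k` layers -/
def shv {E : Type*} [Zero E] (k : ℕ) (f : Lab D L → E) : Lab D L → E := fun a =>
  if h : k ≤ (a.2 : ℕ) then f (a.1, ⟨(a.2 : ℕ) - k, by omega⟩) else 0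

lemma slc_zero (u : Lab D L → G) : slc 0 u = u := by
  funext a
  unfold slc
  rw [dif_pos (Nat.zero_le _)]
  rfl

lemma slc_top {k : ℕ} (hk : L ≤ k) (u : Lab D L → G) : slc k u = 1 := by
  funext a
  unfold slc
  rw [dif_neg (by have := a.2.2; omega)]
  rfl

lemma Y_slc (k : ℕ) (u : Lab D L → G) (a : Lab D L) :
    mt (slc k u a) - 1 = shv k (fun b => mt (u b) - 1) a := by
  unfold slc shv
  split_ifs
  · rfl
  · rw [mt_one, sub_self]

lemma low_shv {E : Type*} [Zero E] (k : ℕ) (f : Lab D L → E) (a : Lab D L) :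
    low (shv k f) a = shv (k + 1) f a := by
  unfold low shv
  by_cases h : (a.2 : ℕ) = 0
  · rw [dif_pos h, dif_neg (by omega)]
  · rw [dif_neg h]
    by_cases h2 : k + 1 ≤ (a.2 : ℕ)
    · rw [dif_pos h2, dif_pos (by simp only; omega)]
      congr 3
      simp only
      omega
    · rw [dif_neg h2, dif_neg (by simp only; omega)]

lemma shv_low {E : Type*} [Zero E] (k : ℕ) (f : Lab D L → E) (a : Lab D L) :
    shv k (low f) a = shv (k + 1) f a := by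
  unfold shv
  by_cases h : k ≤ (a.2 : ℕ)
  · rw [dif_pos h]
    unfold low
    by_cases h2 : (a.2 : ℕ) - k = 0
    · rw [dif_pos h2, dif_neg (by omega)]
    · rw [dif_neg h2, dif_pos (by omega)]
      congr 3
  · rw [dif_neg h, dif_neg (by omega)]

lemma shv_sub {E : Type*} [AddGroup E] (k : ℕ) (f g : Lab D L → E) (a : Lab D L) :
    shv k (fun b => f b - g b) a = shv k f a - shv k g a := by
  unfold shv
  split_ifs
  · rfl
  · simp

lemma shv_norm {E : Type*} [NormedAddCommGroup E] (k : ℕ) (f : Lab D L → E) (a : Lab D L) :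
    ‖shv k f a‖ ^ 2 = if h : k ≤ (a.2 : ℕ) then
      (fun b => ‖f b‖ ^ 2) (a.1, ⟨(a.2 : ℕ) - k, by omega⟩) else 0 := by
  unfold shv
  split_ifs <;> simp

lemma sum_shv_le {E : Type*} [NormedAddCommGroup E] (k : ℕ) (f : Lab D L → E) :
    ∑ a, ‖shv k f a‖ ^ 2 ≤ ∑ a, ‖f a‖ ^ 2 := by
  simp only [shv_norm]
  exact sum_shift_le Finset.univ (fun _ _ _ => Finset.mem_univ _) (fun b => ‖f b‖ ^ 2)
    (fun _ => by positivity) k

/-- the vertical energy of a column -/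
def Vc (u : Lab D L → G) : ℝ :=
  ∑ a, ‖(mt (u a) - 1) - low (fun b => mt (u b) - 1) a‖ ^ 2

lemma Vc_nonneg (u : Lab D L → G) : 0 ≤ Vc u := Finset.sum_nonneg fun _ _ => by positivity

lemma Vc_slc (k : ℕ) (u : Lab D L → G) : Vc (slc k u) ≤ Vc u := by
  unfold Vc
  have h : ∀ a, (mt (slc k u a) - 1) - low (fun b => mt (slc k u b) - 1) a =
      shv k (fun b => (mt (u b) - 1) - low (fun b => mt (u b) - 1) b) a := by
    intro a
    have h1 : (fun b => mt (slc k u b) - 1) = shv k (fun b => mt (u b) - 1) :=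
      funext fun b => Y_slc k u b
    rw [h1, Y_slc, low_shv, ← shv_low, ← shv_sub]
  simp only [h]
  exact sum_shv_le k _

/-- sliding by one more layer -/
lemma slc_succ (k : ℕ) (u : Lab D L → G) :
    ∑ a, ‖mt (slc k u a) - mt (slc (k + 1) u a)‖ ^ 2 ≤ Vc u := by
  unfold Vc
  have h : ∀ a, mt (slc k u a) - mt (slc (k + 1) u a) =
      shv k (fun b => (mt (u b) - 1) - low (fun b => mt (u b) - 1) b) a := by
    intro a
    rw [shv_sub, shv_low, ← Y_slc, ← Y_slc]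
    abel
  simp only [h]
  exact sum_shv_le k _

lemma slc_diff {k k' : ℕ} (h1 : k' ≤ k + 1) (h2 : k ≤ k' + 1) (u : Lab D L → G) :
    ∑ a, ‖mt (slc k' u a) - mt (slc k u a)‖ ^ 2 ≤ if k' = k then 0 else Vc u := by
  rcases lt_trichotomy k' k with h | h | h
  · obtain rfl : k = k' + 1 := by omega
    rw [if_neg (by omega)]
    exact slc_succ k' u
  · subst h
    rw [if_pos rfl]
    simp
  · obtain rfl : k' = k + 1 := by omega
    rw [if_neg (by omega)]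
    refine le_trans (le_of_eq ?_) (slc_succ k u)
    refine Finset.sum_congr rfl fun a _ => ?_
    rw [← norm_neg, neg_sub]

lemma Vc_le_hx (σ : Site D → Lab D L → G) (y : Site D) : Vc (σ y) ≤ 2 * hx σ y := by
  have h1 : Vc (σ y) = ∑ a, ‖dv (Yf σ) y a‖ ^ 2 := rfl
  have h2 : 0 ≤ ∑ p ∈ plabs D L, ‖Pq σ y p‖ ^ 2 := Finset.sum_nonneg fun _ _ => by positivity
  rw [h1]
  unfold hx
  linarith

lemma Vc_le_nrm (u : Lab D L → G) : Vc u ≤ 4 * (D * L) * nrmS u ^ 2 := by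
  have h1 : Vc u ≤ 4 * ∑ a, ‖mt (u a) - 1‖ ^ 2 := by
    unfold Vc
    calc _ ≤ ∑ a, (2 * ‖mt (u a) - 1‖ ^ 2 + 2 * ‖low (fun b => mt (u b) - 1) a‖ ^ 2) := by
          refine Finset.sum_le_sum fun a _ => ?_
          have h := norm_sub_le (mt (u a) - 1) (low (fun b => mt (u b) - 1) a)
          have h2 := pow_le_pow_left₀ (norm_nonneg _) h 2
          nlinarith [sq_nonneg (‖mt (u a) - 1‖ - ‖low (fun b => mt (u b) - 1) a‖)]
      _ = 2 * ∑ a, ‖mt (u a) - 1‖ ^ 2 + 2 * ∑ a, ‖low (fun b => mt (u b) - 1) a‖ ^ 2 := by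
          rw [Finset.sum_add_distrib, ← Finset.mul_sum, ← Finset.mul_sum]
      _ ≤ _ := by
          have := sum_low_norm_le (fun b => mt (u b) - 1)
          linarith
  have h2 : ∑ a : Lab D L, ‖mt (u a) - 1‖ ^ 2 ≤ (D * L) * nrmS u ^ 2 := by
    calc ∑ a : Lab D L, ‖mt (u a) - 1‖ ^ 2 ≤ ∑ a : Lab D L, nrmS u ^ 2 :=
          Finset.sum_le_sum fun a _ => pow_le_pow_left₀ (norm_nonneg _) (le_nrmS u a) 2
      _ = _ := by
          rw [Finset.sum_const, Finset.card_univ, nsmul_eq_mul, Fintype.card_prod,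
            Fintype.card_fin, Fintype.card_fin]
          push_cast; ring
  linarith

lemma nrmS_slc (k : ℕ) (u : Lab D L → G) : nrmS (slc k u) ≤ nrmS u := by
  refine (nrmS_le (nrmS_nonneg _)).2 fun a => ?_
  unfold slc
  split_ifs
  · exact le_nrmS u _
  · simpa using nrmS_nonneg u

lemma sum_plabs_shift (f : (Fin D × Fin D) × Fin L → ℝ) (hf : ∀ p, 0 ≤ f p) (k : ℕ) :
    ∑ p ∈ plabs D L, (if h : k ≤ (p.2 : ℕ) then f (p.1, ⟨(p.2 : ℕ) - k, by omega⟩) else 0) ≤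
      ∑ p ∈ plabs D L, f p := by
  refine sum_shift_le (plabs D L) (fun p hp s => ?_) f hf k
  unfold plabs at hp ⊢
  rw [Finset.mem_filter] at hp ⊢
  exact ⟨Finset.mem_univ _, hp.2⟩

/-- **Sliding**: the energy at `x` after sliding the columns by slowly varying amounts. -/
theorem hx_slide (k : Site D → ℕ) (σ : Site D → Lab D L → G) (x : Site D)
    (hk : ∀ i, k (x + ev i) ≤ k x + 1 ∧ k x ≤ k (x + ev i) + 1) :
    hx (fun y => slc (k y) (σ y)) x ≤ 3 * hx σ x +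
      3 * ∑ i, (if k (x + ev i) = k x then 0 else Vc (σ (x + ev i))) := by
  obtain ⟨τ, hτ⟩ : ∃ τ : Site D → Lab D L → G, τ = fun y => slc (k y) (σ y) := ⟨_, rfl⟩
  rw [← hτ]
  have hV : ∑ a, ‖dv (Yf τ) x a‖ ^ 2 ≤ ∑ a, ‖dv (Yf σ) x a‖ ^ 2 := by
    have h1 : ∑ a, ‖dv (Yf τ) x a‖ ^ 2 = Vc (slc (k x) (σ x)) := by rw [hτ]; rfl
    have h2 : ∑ a, ‖dv (Yf σ) x a‖ ^ 2 = Vc (σ x) := rfl
    rw [h1, h2]
    exact Vc_slc _ _
  obtain ⟨e, he⟩ : ∃ e : Fin D → Lab D L → ℝ, e = fun i a =>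
    ‖mt (slc (k (x + ev i)) (σ (x + ev i)) a) - mt (slc (k x) (σ (x + ev i)) a)‖ ^ 2 := ⟨_, rfl⟩
  have he0 : ∀ i a, 0 ≤ e i a := fun i a => by rw [he]; positivity
  have hE : ∀ i, ∑ a, e i a ≤ if k (x + ev i) = k x then 0 else Vc (σ (x + ev i)) := fun i => by
    rw [he]; exact slc_diff (hk i).1 (hk i).2 _
  have hP : ∀ p : (Fin D × Fin D) × Fin L, ‖Pq τ x p‖ ^ 2 ≤
      3 * (if h : k x ≤ (p.2 : ℕ) then
        (fun q => ‖Pq σ x q‖ ^ 2) (p.1, ⟨(p.2 : ℕ) - k x, by omega⟩) else 0) +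
      3 * e p.1.1 (p.1.2, p.2) + 3 * e p.1.2 (p.1.1, p.2) := by
    intro p
    obtain ⟨Q, hQ⟩ : ∃ Q : Mt N, Q = mt (slc (k x) (σ x) (p.1.1, p.2)) *
        mt (slc (k x) (σ (x + ev p.1.1)) (p.1.2, p.2)) -
      mt (slc (k x) (σ x) (p.1.2, p.2)) * mt (slc (k x) (σ (x + ev p.1.2)) (p.1.1, p.2)) :=
      ⟨_, rfl⟩
    have hQ2 : ‖Q‖ ^ 2 = if h : k x ≤ (p.2 : ℕ) then
        (fun q => ‖Pq σ x q‖ ^ 2) (p.1, ⟨(p.2 : ℕ) - k x, by omega⟩) else 0 := by
      rw [hQ]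
      unfold slc
      by_cases h : k x ≤ (p.2 : ℕ)
      · simp only [h, dite_true]
        rfl
      · simp only [h, dite_false, mt_one, mul_one, sub_self, norm_zero]
        norm_num
    have h1 : Pq τ x p = Q + mt (slc (k x) (σ x) (p.1.1, p.2)) *
        (mt (slc (k (x + ev p.1.1)) (σ (x + ev p.1.1)) (p.1.2, p.2)) -
          mt (slc (k x) (σ (x + ev p.1.1)) (p.1.2, p.2))) -
        mt (slc (k x) (σ x) (p.1.2, p.2)) *
        (mt (slc (k (x + ev p.1.2)) (σ (x + ev p.1.2)) (p.1.1, p.2)) -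
          mt (slc (k x) (σ (x + ev p.1.2)) (p.1.1, p.2))) := by
      rw [hQ, hτ]
      unfold Pq
      noncomm_ring
    have h2 : ‖Pq τ x p‖ ≤ ‖Q‖ +
        ‖mt (slc (k (x + ev p.1.1)) (σ (x + ev p.1.1)) (p.1.2, p.2)) -
          mt (slc (k x) (σ (x + ev p.1.1)) (p.1.2, p.2))‖ +
        ‖mt (slc (k (x + ev p.1.2)) (σ (x + ev p.1.2)) (p.1.1, p.2)) -
          mt (slc (k x) (σ (x + ev p.1.2)) (p.1.1, p.2))‖ := by
      rw [h1]
      refine (norm_sub_le _ _).trans ?_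
      rw [norm_mt_mul]
      refine add_le_add ((norm_add_le _ _).trans ?_) le_rfl
      rw [norm_mt_mul]
    rw [← hQ2, he]
    have h3 := pow_le_pow_left₀ (norm_nonneg _) h2 2
    refine h3.trans ?_
    simp only
    obtain ⟨u, hu⟩ : ∃ u, u = ‖Q‖ := ⟨_, rfl⟩
    obtain ⟨v, hv⟩ : ∃ v, v = ‖mt (slc (k (x + ev p.1.1)) (σ (x + ev p.1.1)) (p.1.2, p.2)) -
          mt (slc (k x) (σ (x + ev p.1.1)) (p.1.2, p.2))‖ := ⟨_, rfl⟩
    obtain ⟨w, hw⟩ : ∃ w, w = ‖mt (slc (k (x + ev p.1.2)) (σ (x + ev p.1.2)) (p.1.1, p.2)) -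
          mt (slc (k x) (σ (x + ev p.1.2)) (p.1.1, p.2))‖ := ⟨_, rfl⟩
    rw [← hu, ← hv, ← hw]
    nlinarith [sq_nonneg (u - v), sq_nonneg (u - w), sq_nonneg (v - w)]
  have hS : ∑ p ∈ plabs D L, ‖Pq τ x p‖ ^ 2 ≤ 3 * ∑ p ∈ plabs D L, ‖Pq σ x p‖ ^ 2 +
      6 * ∑ i, (if k (x + ev i) = k x then 0 else Vc (σ (x + ev i))) := by
    have s1 := sum_plabs_shift (fun q : (Fin D × Fin D) × Fin L => ‖Pq σ x q‖ ^ 2)
      (fun _ => by positivity) (k x)
    have s2 : ∑ p ∈ plabs D L, e p.1.1 (p.1.2, p.2) ≤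
        ∑ i, (if k (x + ev i) = k x then 0 else Vc (σ (x + ev i))) := by
      refine (plabs_le _ fun p => he0 _ _).trans ?_
      rw [sum_pairs2 e]
      exact Finset.sum_le_sum fun i _ => hE i
    have s3 : ∑ p ∈ plabs D L, e p.1.2 (p.1.1, p.2) ≤
        ∑ i, (if k (x + ev i) = k x then 0 else Vc (σ (x + ev i))) := by
      refine (plabs_le _ fun p => he0 _ _).trans ?_
      rw [sum_pairs2' e]
      exact Finset.sum_le_sum fun i _ => hE i
    calc ∑ p ∈ plabs D L, ‖Pq τ x p‖ ^ 2 ≤ ∑ p ∈ plabs D L,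
          (3 * (if h : k x ≤ (p.2 : ℕ) then
          (fun q => ‖Pq σ x q‖ ^ 2) (p.1, ⟨(p.2 : ℕ) - k x, by omega⟩) else 0) +
          3 * e p.1.1 (p.1.2, p.2) + 3 * e p.1.2 (p.1.1, p.2)) :=
          Finset.sum_le_sum fun p _ => hP p
      _ = 3 * ∑ p ∈ plabs D L, (if h : k x ≤ (p.2 : ℕ) then
          (fun q => ‖Pq σ x q‖ ^ 2) (p.1, ⟨(p.2 : ℕ) - k x, by omega⟩) else 0) +
          3 * ∑ p ∈ plabs D L, e p.1.1 (p.1.2, p.2) +
          3 * ∑ p ∈ plabs D L, e p.1.2 (p.1.1, p.2) := by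
          rw [Finset.sum_add_distrib, Finset.sum_add_distrib, Finset.mul_sum, Finset.mul_sum,
            Finset.mul_sum]
      _ ≤ _ := by linarith
  have h4 : 0 ≤ ∑ a, ‖dv (Yf σ) x a‖ ^ 2 := Finset.sum_nonneg fun _ _ => by positivity
  unfold hx
  linarith

/-- the energy of a trivial configuration -/
lemma hx_triv (σ : Site D → Lab D L → G) (x : Site D) (h : ∀ y ∈ spS x, σ y = 1) :
    hx σ x = 0 := by
  have h1 := hx_loc x σ (fun _ => 1) h
  rw [h1]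
  have h2 := hx_le (fun _ => 1 : Site D → Lab D L → G) x
  have h3 : ∀ y, es (fun _ => 1 : Site D → Lab D L → G) y = 0 := by
    intro y
    unfold es Yf
    simp
  simp only [h3, Finset.sum_const_zero, add_zero, mul_zero] at h2
  exact le_antisymm h2 (hx_nonneg _ _)

/-- continuity of the energy under right shifts -/
theorem hx_mul_le (g σ : Site D → Lab D L → G) (x : Site D) :
    hx (σ * g) x ≤ 2 * hx σ x + (8 * D + 8) * (es g x + ∑ i, es g (x + ev i)) := by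
  have hV : ∑ a, ‖dv (Yf (σ * g)) x a‖ ^ 2 ≤ 2 * ∑ a, ‖dv (Yf σ) x a‖ ^ 2 + 8 * es g x := by
    obtain ⟨E, hE⟩ : ∃ E : Lab D L → Mt N, E = fun a => mt (σ x a) * (mt (g x a) - 1) := ⟨_, rfl⟩
    have h1 : ∀ a, dv (Yf (σ * g)) x a = dv (Yf σ) x a + (E a - low E a) := by
      intro a
      have h2 : Yf (σ * g) x = fun b => Yf σ x b + E b := by
        funext b
        rw [hE]
        unfold Yf
        rw [Pi.mul_apply, Pi.mul_apply, mt_mul]
        noncomm_ring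
      unfold dv
      rw [h2]
      have h3 : low (fun b => Yf σ x b + E b) a = low (Yf σ x) a + low E a := by
        unfold low; split_ifs <;> simp
      rw [h3]
      simp only
      abel
    have h2 : ∑ a, ‖E a‖ ^ 2 = es g x := by
      unfold es
      refine Finset.sum_congr rfl fun a _ => ?_
      rw [hE]
      simp only [norm_mt_mul]
      rfl
    calc ∑ a, ‖dv (Yf (σ * g)) x a‖ ^ 2 ≤
          ∑ a, (2 * ‖dv (Yf σ) x a‖ ^ 2 + (4 * ‖E a‖ ^ 2 + 4 * ‖low E a‖ ^ 2)) := by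
          refine Finset.sum_le_sum fun a _ => ?_
          rw [h1]
          have t1 := norm_add_le (dv (Yf σ) x a) (E a - low E a)
          have t2 := norm_sub_le (E a) (low E a)
          have t3 : ‖dv (Yf σ) x a + (E a - low E a)‖ ≤
              ‖dv (Yf σ) x a‖ + (‖E a‖ + ‖low E a‖) := t1.trans (add_le_add le_rfl t2)
          have t4 := pow_le_pow_left₀ (norm_nonneg _) t3 2
          nlinarith [sq_nonneg (‖dv (Yf σ) x a‖ - (‖E a‖ + ‖low E a‖)),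
            sq_nonneg (‖E a‖ - ‖low E a‖)]
      _ = 2 * ∑ a, ‖dv (Yf σ) x a‖ ^ 2 + (4 * ∑ a, ‖E a‖ ^ 2 + 4 * ∑ a, ‖low E a‖ ^ 2) := by
          rw [Finset.sum_add_distrib, Finset.sum_add_distrib, ← Finset.mul_sum,
            ← Finset.mul_sum, ← Finset.mul_sum]
      _ ≤ _ := by
          have := sum_low_norm_le E
          rw [h2] at this ⊢
          linarith
  have hP : ∀ p : (Fin D × Fin D) × Fin L, ‖Pq (σ * g) x p‖ ^ 2 ≤ 2 * ‖Pq σ x p‖ ^ 2 +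
      8 * (‖Yf g x (p.1.1, p.2)‖ ^ 2 + ‖Yf g (x + ev p.1.1) (p.1.2, p.2)‖ ^ 2 +
      ‖Yf g x (p.1.2, p.2)‖ ^ 2 + ‖Yf g (x + ev p.1.2) (p.1.1, p.2)‖ ^ 2) := by
    intro p
    have key : ∀ a b s t : G, ‖mt (s * a) * mt (t * b) - mt s * mt t‖ ≤
        ‖mt a - 1‖ + ‖mt b - 1‖ := by
      intro a b s t
      have e : mt (s * a) * mt (t * b) - mt s * mt t =
          mt s * (mt a - 1) * mt (t * b) + mt s * (mt t * (mt b - 1)) := by
        rw [mt_mul, mt_mul]; noncomm_ring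
      rw [e]
      refine (norm_add_le _ _).trans ?_
      rw [norm_mul_mt, norm_mt_mul, norm_mt_mul, norm_mt_mul]
    have h1 : ‖Pq (σ * g) x p‖ ≤ ‖Pq σ x p‖ + ((‖Yf g x (p.1.1, p.2)‖ +
        ‖Yf g (x + ev p.1.1) (p.1.2, p.2)‖) + (‖Yf g x (p.1.2, p.2)‖ +
        ‖Yf g (x + ev p.1.2) (p.1.1, p.2)‖)) := by
      have e : Pq (σ * g) x p = Pq σ x p +
        ((mt (σ x (p.1.1, p.2) * g x (p.1.1, p.2)) *
            mt (σ (x + ev p.1.1) (p.1.2, p.2) * g (x + ev p.1.1) (p.1.2, p.2)) -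
            mt (σ x (p.1.1, p.2)) * mt (σ (x + ev p.1.1) (p.1.2, p.2))) -
          (mt (σ x (p.1.2, p.2) * g x (p.1.2, p.2)) *
            mt (σ (x + ev p.1.2) (p.1.1, p.2) * g (x + ev p.1.2) (p.1.1, p.2)) -
            mt (σ x (p.1.2, p.2)) * mt (σ (x + ev p.1.2) (p.1.1, p.2)))) := by
        unfold Pq
        simp only [Pi.mul_apply]
        abel
      rw [e]
      refine (norm_add_le _ _).trans (add_le_add le_rfl ((norm_sub_le _ _).trans
        (add_le_add (key _ _ _ _) (key _ _ _ _))))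
    have h2 := pow_le_pow_left₀ (norm_nonneg _) h1 2
    refine h2.trans ?_
    obtain ⟨q, hq⟩ : ∃ q, q = ‖Pq σ x p‖ := ⟨_, rfl⟩
    obtain ⟨a, ha⟩ : ∃ a, a = ‖Yf g x (p.1.1, p.2)‖ := ⟨_, rfl⟩
    obtain ⟨b, hb⟩ : ∃ b, b = ‖Yf g (x + ev p.1.1) (p.1.2, p.2)‖ := ⟨_, rfl⟩
    obtain ⟨c, hc⟩ : ∃ c, c = ‖Yf g x (p.1.2, p.2)‖ := ⟨_, rfl⟩
    obtain ⟨d, hd⟩ : ∃ d, d = ‖Yf g (x + ev p.1.2) (p.1.1, p.2)‖ := ⟨_, rfl⟩
    rw [← hq, ← ha, ← hb, ← hc, ← hd]
    nlinarith [sq_nonneg (q - (a + b + (c + d))), sq_nonneg (a - b), sq_nonneg (a - c),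
      sq_nonneg (a - d), sq_nonneg (b - c), sq_nonneg (b - d), sq_nonneg (c - d)]
  have hS : ∑ p ∈ plabs D L, ‖Pq (σ * g) x p‖ ^ 2 ≤ 2 * ∑ p ∈ plabs D L, ‖Pq σ x p‖ ^ 2 +
      (16 * D * es g x + 16 * ∑ i, es g (x + ev i)) := by
    have s1 : ∑ p ∈ plabs D L, 8 * (‖Yf g x (p.1.1, p.2)‖ ^ 2 +
        ‖Yf g (x + ev p.1.1) (p.1.2, p.2)‖ ^ 2 +
        ‖Yf g x (p.1.2, p.2)‖ ^ 2 + ‖Yf g (x + ev p.1.2) (p.1.1, p.2)‖ ^ 2) ≤
        16 * D * es g x + 16 * ∑ i, es g (x + ev i) := by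
      refine (plabs_le _ fun _ => by positivity).trans (le_of_eq ?_)
      rw [← Finset.mul_sum, Finset.sum_add_distrib, Finset.sum_add_distrib,
        Finset.sum_add_distrib, sum_pairs (fun a => ‖Yf g x a‖ ^ 2),
        sum_pairs' (fun a => ‖Yf g x a‖ ^ 2),
        sum_pairs2 (fun i a => ‖Yf g (x + ev i) a‖ ^ 2),
        sum_pairs2' (fun i a => ‖Yf g (x + ev i) a‖ ^ 2)]
      unfold es
      ring
    calc ∑ p ∈ plabs D L, ‖Pq (σ * g) x p‖ ^ 2 ≤ ∑ p ∈ plabs D L, (2 * ‖Pq σ x p‖ ^ 2 +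
          8 * (‖Yf g x (p.1.1, p.2)‖ ^ 2 + ‖Yf g (x + ev p.1.1) (p.1.2, p.2)‖ ^ 2 +
          ‖Yf g x (p.1.2, p.2)‖ ^ 2 + ‖Yf g (x + ev p.1.2) (p.1.1, p.2)‖ ^ 2)) :=
          Finset.sum_le_sum fun p _ => hP p
      _ ≤ _ := by
          rw [Finset.sum_add_distrib, ← Finset.mul_sum]
          linarith
  have h3 : 0 ≤ es g x := es_nonneg _ _
  have h4 : 0 ≤ ∑ i, es g (x + ev i) := Finset.sum_nonneg fun _ _ => es_nonneg _ _
  have h5 : (0 : ℝ) ≤ D := Nat.cast_nonneg _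
  unfold hx
  nlinarith [mul_nonneg h5 h4, mul_nonneg h5 h3]

end

end Pool.Agent.N990
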